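import Pool.Agent.W390.SD.P.add
import Pool.Agent.W390.SD.P.zero
import Pool.Agent.W390.SD.P.rk
import Pool.Agent.W390.SD.P.dd
import Pool.Agent.W390.SD.P.dlog
import Pool.Agent.W390.SD.P.ker
import Pool.Agent.W390.SD.P.ind
import Pool.Agent.W390.SD.P.basis
import Pool.Agent.W390.SD.P.rkm
import Pool.Agent.W390.SD.P.tiff
import Pool.Agent.W390.SD.P.tcons
import Pool.Agent.W390.SD.P.oiff
import Pool.Agent.W390.SD.P.ocons
import Pool.Agent.W390.SD.P.ctr
import Pool.Agent.W390.SD.P.ddsg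
import Pool.Agent.W390.SD.P.ctr_edge
import Pool.Agent.W390.SD.P.ctr_out
import Pool.Agent.W390.SD.P.ctrnu
import Pool.Agent.W390.SD.P.ctrt
import Pool.Agent.W390.SD.P.sw
import Pool.Agent.W390.SD.P.ctrK
import Pool.Agent.W390.SD.P.clique
import Pool.Agent.W390.SD.P.qd
import Pool.Agent.W390.SD.P.tri
import Pool.Agent.W390.SD.P.small
import Pool.Agent.W390.SD.P.clind
import Pool.Agent.W390.SD.P.tw
import Pool.Agent.W390.SD.P.EX
import Pool.Agent.W390.SD.P.FLchar
import Pool.Agent.W390.SD.P.dvd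
import Pool.Agent.W390.SD.P.interp
import Pool.Agent.W390.SD.P.deg
import Pool.Agent.W390.SD.P.cnt
import Pool.Agent.W390.SD.P.ctrcomm
import Pool.Agent.W390.SD.P.FLP
import Pool.Agent.W390.SD.P.FL2
import Pool.Agent.W390.SD.P.claim1
import Pool.Agent.W390.SD.P.const
import Pool.Agent.W390.SD.P.hex
import Pool.Agent.W390.SD.P.ta0
import Pool.Agent.W390.SD.P.TA
import Pool.Agent.W390.SD.P.dorth
import Pool.Agent.W390.SD.P.decomp
import Pool.Agent.W390.SD.P.blocks
import Pool.Agent.W390.SD.P.TL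
import Pool.Agent.W390.SD.P.fold
import Pool.Agent.W390.SD.P.TLline
import Pool.Agent.W390.SD.P.unif
import Pool.Agent.W390.SD.P.uqA
import Pool.Agent.W390.SD.P.cl
import Pool.Agent.W390.SD.P.twin
import Pool.Agent.W390.SD.P.unifrk
import Pool.Agent.W390.SD.P.sol
import Pool.Agent.W390.SD.P.spec
import Pool.Agent.W390.SD.P.gil
import Pool.Agent.W390.SD.P.uqB1
import Pool.Agent.W390.SD.P.uqB2
import Pool.Agent.W390.SD.P.uqB
import Pool.Agent.W390.SD.P.uq
import Pool.Agent.W390.SD.P.nontwin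
import Pool.Agent.W390.SD.P.zcap
import Pool.Agent.W390.SD.P.degbd
import Pool.Agent.W390.SD.P.par
import Pool.Agent.W390.SD.P.lin
import Pool.Agent.W390.SD.P.mult
import Pool.Agent.W390.SD.P.rkplus
import Pool.Agent.W390.SD.P.interp2
import Pool.Agent.W390.SD.P.zeros
import Pool.Agent.W390.SD.P.ctr2
import Pool.Agent.W390.SD.P.lift
import Pool.Agent.W390.SD.P.nbr
import Pool.Agent.W390.SD.P.dbl
import Pool.Agent.W390.SD.P.two
import Pool.Agent.W390.SD.P.star
import Pool.Agent.W390.SD.P.sp1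
import Pool.Agent.W390.SD.P.sp2
import Pool.Agent.W390.SD.P.sp3
import Pool.Agent.W390.SD.P.iia
import Pool.Agent.W390.SD.P.geo
import Pool.Agent.W390.SD.P.typ
import Pool.Agent.W390.SD.P.clA
import Pool.Agent.W390.SD.P.dsp
import Pool.Agent.W390.SD.P.iib
import Pool.Agent.W390.SD.P.m1
import Pool.Agent.W390.SD.P.piece
import Pool.Agent.W390.SD.P.step
import Pool.Agent.W390.SD.P.all

/-! Project SD: assembly. -/

namespace Pool.Agent.W390.SD

theorem t_add : S_add := p_add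
theorem t_zero : S_zero := p_zero t_add
theorem t_rk : S_rk := p_rk t_add
theorem t_dd : S_dd := p_dd
theorem t_dlog : S_dlog := p_dlog t_dd
theorem t_ker : S_ker := p_ker t_dd t_dlog
theorem t_ind : S_ind := p_ind t_dd t_dlog t_ker t_add
theorem t_basis : S_basis := p_basis t_dd t_ind t_ker
theorem t_rkm : S_rkm := p_rkm t_rk t_zero t_basis t_add
theorem t_tiff : S_tiff := p_tiff t_add
theorem t_tcons : S_tcons := p_tcons t_add t_tiff
theorem t_oiff : S_oiff := p_oiff t_add t_tiff t_tcons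
theorem t_ocons : S_ocons := p_ocons t_add t_tiff t_tcons t_oiff
theorem t_ctr : S_ctr := p_ctr
theorem t_ddsg : S_ddsg := p_ddsg t_dd
theorem t_ctr_edge : S_ctr_edge := p_ctr_edge t_dd t_ddsg
theorem t_ctr_out : S_ctr_out := p_ctr_out t_dd t_ddsg
theorem t_ctrnu : S_ctrnu := p_ctrnu t_dd t_ddsg t_ctr_edge t_ctr_out t_ind t_basis t_rk t_add
theorem t_ctrt : S_ctrt := p_ctrt t_add t_tcons t_ctr t_ctrnu
theorem t_sw : S_sw := p_sw t_dd t_basis t_rk
theorem t_ctrK : S_ctrK := p_ctrK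
theorem t_clique : S_clique := p_clique t_dd t_basis t_ctrK t_ctrnu t_add
theorem t_qd : S_qd := p_qd t_add
theorem t_tri : S_tri := p_tri t_add t_qd t_tiff t_zero t_rk
theorem t_small : S_small := p_small t_tri t_rk t_zero t_clique t_rkm t_ind t_add t_basis
theorem t_clind : S_clind := p_clind t_clique t_ctrK t_ctrt t_ctrnu t_zero t_small t_ctr t_add
  t_tcons
theorem t_tw : S_tw := p_tw t_add t_sw t_clind t_clique t_ctr t_ctrK t_zero t_rkm
theorem t_EX : S_EX := p_EX t_add t_zero t_rkm t_tcons t_ocons t_ctr t_ctrnu t_ctrt t_tw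
theorem t_FLchar : S_FLchar := p_FLchar t_dd t_ddsg t_ctr_out t_ker t_ind t_add t_ctr t_dlog
theorem t_dvd : S_dvd := p_dvd
theorem t_interp : S_interp := p_interp t_dvd
theorem t_deg : S_deg := p_deg t_dd
theorem t_cnt : S_cnt := p_cnt t_dd t_interp t_deg
theorem t_ctrcomm : S_ctrcomm := p_ctrcomm
theorem t_FLP : S_FLP := p_FLP t_dd t_ddsg t_cnt t_deg t_ctr_edge t_ctr_out t_ind t_basis t_ctr
  t_ctrcomm t_ctrnu t_add
theorem t_FL2 : S_FL2 := p_FL2 t_dd t_rk t_ind t_basis t_FLchar t_FLP t_ctr t_ctrnu t_add t_zero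
theorem t_claim1 : S_claim1 := p_claim1 t_dd t_ddsg t_interp t_deg t_ctr_edge t_ctr t_basis
theorem t_const : S_const := p_const t_ddsg
theorem t_hex : S_hex := p_hex t_dd t_ddsg t_cnt t_deg t_ctr_edge t_ctr t_const
theorem t_ta0 : S_ta0 := p_ta0 t_dd t_dlog t_ind t_basis t_add
theorem t_TA : S_TA := p_TA t_dd t_dlog t_ker t_ind t_claim1 t_hex t_ta0 t_basis
theorem t_dorth : S_dorth := p_dorth t_add t_tiff t_tcons t_oiff t_ocons t_zero
theorem t_decomp : S_decomp := p_decomp t_add t_tcons t_zero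
theorem t_blocks : S_blocks := p_blocks t_add t_zero t_tcons t_oiff t_ocons t_decomp t_dorth
  t_ctr t_ctrnu t_ctrt
theorem t_TL : S_TL := p_TL t_add t_zero t_rk t_rkm t_tcons t_dorth t_clique t_clind t_small
  t_ctr t_ctrK t_ctrnu t_ctrt t_sw t_blocks t_tw
theorem t_fold : S_fold := p_fold t_dd t_ddsg t_ctr_out t_ker t_ind t_basis t_ctr t_add t_dlog
theorem t_TLline : S_TLline := p_TLline t_add t_zero t_rk t_rkm t_tcons t_dorth t_clique t_clind
  t_small t_ctr t_ctrK t_ctrnu t_ctrt t_sw t_FL2 t_blocks t_fold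
theorem t_unif : S_unif := p_unif t_TA t_basis t_add t_zero t_tcons
theorem t_uqA : S_uqA := p_uqA t_tcons t_oiff t_ctr t_ctrnu t_ctrt t_cnt t_basis t_rk t_rkm
  t_add t_deg t_zero
theorem t_cl : S_cl := p_cl t_tcons t_rk t_clique t_add
theorem t_twin : S_twin := p_twin t_dd t_ddsg t_basis t_ctr
theorem t_unifrk : S_unifrk := p_unifrk t_basis t_rk
theorem t_sol : S_sol := p_sol t_dd t_dlog
theorem t_spec : S_spec := p_spec t_add t_ctr
theorem t_gil : S_gil := p_gil t_dd t_sol t_spec t_oiff t_tcons t_cnt t_deg t_interp t_ind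
  t_basis t_add t_ctr t_ctrnu t_ctrt t_zero
theorem t_uqB1 : S_uqB1 := p_uqB1 t_gil t_decomp t_ocons t_ctr t_ctrnu t_ctrt t_tcons t_add
  t_oiff t_zero
theorem t_uqB2 : S_uqB2 := p_uqB2 t_add t_basis t_rk t_rkm t_zero t_tcons t_tri t_clique t_clind
  t_small t_cl t_ctr t_ctrK t_ctrnu t_ctrt t_sw t_unif
theorem t_uqB : S_uqB := p_uqB t_add t_basis t_rk t_rkm t_zero t_tcons t_tri t_oiff t_ocons
  t_clique t_clind t_small t_cl t_ctr t_ctrK t_ctrnu t_ctrt t_sw t_twin t_cnt t_unif t_unifrk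
  t_uqB1 t_uqB2
theorem t_uq : S_uq := p_uq t_zero t_tcons t_uqA t_uqB
theorem t_nontwin : S_nontwin := p_nontwin t_add t_zero t_cnt t_basis t_ctrnu t_rkm t_clique
  t_clind
theorem t_zcap : S_zcap := p_zcap t_unifrk t_FL2
theorem t_degbd : S_degbd := p_degbd t_dd t_ctr_out t_interp t_deg t_unifrk t_basis t_rk t_zero
theorem t_par : S_par := p_par t_dd t_basis t_add
theorem t_lin : S_lin := p_lin t_dd t_dlog t_ker t_ind t_basis t_cnt t_deg t_dvd t_interp t_rk
theorem t_mult : S_mult := p_mult t_dd t_ddsg t_dvd t_basis t_ctr_edge t_ctr t_deg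
theorem t_rkplus : S_rkplus := p_rkplus t_add t_rk
theorem t_interp2 : S_interp2 := p_interp2 t_dvd
theorem t_zeros : S_zeros := p_zeros t_dd t_par t_lin t_mult t_rkplus t_interp2 t_cnt t_deg
  t_basis t_ctr t_ctrnu t_ctrt t_add t_tcons t_rk t_rkm t_zero
theorem t_ctr2 : S_ctr2 := p_ctr2
theorem t_lift : S_lift := p_lift t_ctr t_ctrcomm t_ctr2 t_ctrnu
theorem t_nbr : S_nbr := p_nbr
theorem t_dbl : S_dbl := p_dbl t_ctr t_ctrcomm t_ctrnu t_lift
theorem t_two : S_two := p_two t_add t_basis t_rk t_rkm t_zero t_tcons t_cnt t_ctr t_ctrnu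
  t_ctrt t_unif t_unifrk t_degbd t_zeros t_lift t_nbr t_tw t_TL t_EX t_dbl
theorem t_star : S_star := p_star t_dd t_ddsg t_ctr_out t_ind t_basis t_FLchar t_deg t_ctr t_ctrnu
theorem t_sp1 : S_sp1 := p_sp1 t_dd t_star
theorem t_sp2 : S_sp2 := p_sp2 t_dd t_ddsg t_ctr_edge t_ctr t_ctrnu t_lift t_sp1
theorem t_sp3 : S_sp3 := p_sp3 t_basis t_deg t_unifrk t_FLP t_sp1
theorem t_iia : S_iia := p_iia t_add t_basis t_rk t_rkm t_zero t_tcons t_interp t_cnt t_ctr
  t_ctrnu t_ctrt t_unif t_unifrk t_degbd t_zeros t_FL2 t_lift t_nbr t_TLline t_sp2 t_sp3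
theorem t_geo : S_geo := p_geo t_dd t_deg t_interp t_ctr_out t_basis t_rk t_rkm t_tcons t_ctr
  t_ctrnu t_degbd t_nbr t_zero
theorem t_typ : S_typ := p_typ t_basis t_rkm t_tcons t_ctr t_FL2 t_TL t_EX t_sp1
theorem t_clA : S_clA := p_clA t_add t_zero t_basis t_rk t_rkm t_tcons t_ctr t_ctrnu t_ctrt
  t_unif t_lift t_tw t_zcap t_two t_iia t_sp2 t_typ
theorem t_dsp : S_dsp := p_dsp t_dvd t_interp
theorem t_iib : S_iib := p_iib t_add t_zero t_basis t_rkm t_tcons t_interp t_ctr t_ctrcomm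
  t_ctrnu t_ctrt t_unif t_unifrk t_degbd t_zeros t_lift t_nbr t_tw t_sp2 t_sp3 t_geo t_typ t_clA
  t_dsp
theorem t_m1 : S_m1 := p_m1 t_basis t_zero t_clique t_ctr t_degbd
theorem t_piece : S_piece := p_piece t_add t_zero t_basis t_rk t_rkm t_tcons t_ocons t_decomp
  t_dorth t_small t_clique t_ctr t_ctrnu t_unif t_unifrk t_degbd t_nbr t_m1
theorem t_step : S_step := p_step t_zero t_rk t_rkm t_tcons t_ctr t_unif t_uq t_nontwin t_zcap
  t_two t_iia t_iib t_piece
theorem t_all : S_all := p_all t_zero t_step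

end Pool.Agent.W390.SD
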