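import Mathlib

/-!
# Strong duality for even graphs (project SD): definitions

Everything is for a finite vertex set `V`.  A graph is its adjacency function over `ZMod 2`,
so that the sum of graphs is the mod 2 sum (symmetric difference of edge sets).
`R V = F_2[t_v : v in V]`, `F V` its fraction field, `xx v = t_v ^ 2`.
-/

namespace Pool.Agent.W390.SD

open MvPolynomial Finset

/-- Adjacency functions over `F_2`; addition is the mod 2 sum of graphs. -/
abbrev Gr (V : Type) : Type := V → V → ZMod 2

/-- Even graphs: symmetric, loopless, all degrees even. -/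
structure IsEv {V : Type} [Fintype V] (A : Gr V) : Prop where
  symm : ∀ u v, A u v = A v u
  diag : ∀ v, A v v = 0
  even : ∀ v, ∑ u, A v u = 0

/-- The neighbours of `v`. -/
def nbr {V : Type} [Fintype V] (A : Gr V) (v : V) : Finset V :=
  univ.filter (fun u => A v u ≠ 0)

/-- The non-isolated vertices. -/
def supp {V : Type} [Fintype V] (A : Gr V) : Finset V :=
  univ.filter (fun v => (nbr A v).Nonempty)

/-- The complete graph on the vertex set `S`. -/
def K {V : Type} [DecidableEq V] (S : Finset V) : Gr V :=
  fun u v => if u ∈ S ∧ v ∈ S ∧ u ≠ v then 1 else 0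

/-- The polynomial ring in the variables `t_v`. -/
abbrev R (V : Type) : Type := MvPolynomial V (ZMod 2)

/-- Its fraction field. -/
abbrev F (V : Type) : Type := FractionRing (MvPolynomial V (ZMod 2))

/-- `x_v = t_v ^ 2`. -/
noncomputable def xx {V : Type} (v : V) : R V := X v ^ 2

/-- `x_v` in the fraction field. -/
noncomputable def xF {V : Type} (v : V) : F V := algebraMap (R V) (F V) (xx v)

/-- The Laplacian of `A` with weight `1 / (x_u + x_v)` on the edge `uv`
(note that `(x_u + x_u)⁻¹ = 0`). -/
noncomputable def Lap {V : Type} [Fintype V] [DecidableEq V] (A : Gr V) : Matrix V V (F V) :=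
  fun u v => if u = v then ∑ w, (if A u w = 0 then 0 else (xF u + xF w)⁻¹)
    else (if A u v = 0 then 0 else (xF u + xF v)⁻¹)

/-- The rank of the Laplacian. -/
noncomputable def nu {V : Type} [Fintype V] [DecidableEq V] (A : Gr V) : ℕ := (Lap A).rank

/-- The rank of the set `C` of columns of the Laplacian. -/
noncomputable def nuC {V : Type} [Fintype V] [DecidableEq V] (A : Gr V) (C : Finset V) : ℕ :=
  Module.finrank (F V) (Submodule.span (F V) ((fun j : V => (Lap A).col j) '' (C : Set V)))

/-- The rank of the vertex set `B` (`= |B| - nu + nuC (complement of B)`):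
dimension of the space of restrictions to `B` of the functions in the kernel of the Laplacian. -/
noncomputable def rk {V : Type} [Fintype V] [DecidableEq V] (A : Gr V) (B : Finset V) : ℕ :=
  Module.finrank (F V) (Submodule.map (LinearMap.funLeft (F V) (F V) (fun b : B => (b : V)))
    (LinearMap.ker (Lap A).mulVecLin))

/-- `H` is a tight part of `G`. -/
def Tight {V : Type} [Fintype V] [DecidableEq V] (H G : Gr V) : Prop :=
  IsEv H ∧ nu G = nu H + nu (G + H)

/-- The tight parts `H₁`, `H₂` of `G` are orthogonal in `G`. -/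
def Orth {V : Type} [Fintype V] [DecidableEq V] (H₁ H₂ G : Gr V) : Prop :=
  nu G = nu H₁ + nu H₂ + nu (G + H₁ + H₂)

/-- Indecomposable (nonzero) even graphs. -/
def Indec {V : Type} [Fintype V] [DecidableEq V] (G : Gr V) : Prop :=
  IsEv G ∧ G ≠ 0 ∧ ∀ H, Tight H G → H = 0 ∨ H = G

/-- Basic graphs: odd cliques and graphs of rank at most 3. -/
def Basic {V : Type} [Fintype V] [DecidableEq V] (G : Gr V) : Prop :=
  (∃ S : Finset V, Odd S.card ∧ 3 ≤ S.card ∧ G = K S) ∨ (supp G).card ≤ nu G + 3

/-- Strong duality for graphs with at most `n` non-isolated vertices. -/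
def SDn (V : Type) [Fintype V] [DecidableEq V] (n : ℕ) : Prop :=
  ∀ G : Gr V, Indec G → (supp G).card ≤ n → Basic G

/-- Partial derivative along all `j ∈ J`. On monomials: `t^m ↦ t^(m - 1_J)` if all `m j`, `j ∈ J`,
are odd, and `0` otherwise. -/
noncomputable def dd {V : Type} [DecidableEq V] (J : Finset V) : R V →ₗ[ZMod 2] R V :=
  J.toList.foldr (fun v (f : R V →ₗ[ZMod 2] R V) =>
    ((pderiv v : Derivation (ZMod 2) (R V) (R V)) : R V →ₗ[ZMod 2] R V) ∘ₗ f) LinearMap.id

/-- The factor `t_u + t_v` of an edge. -/
noncomputable def fac {V : Type} (e : Sym2 V) : R V :=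
  Sym2.lift ⟨fun u v => (X u + X v : R V), fun _ _ => add_comm _ _⟩ e

/-- The edges of `A` (as a symmetric relation). -/
def edg {V : Type} [Fintype V] [DecidableEq V] (A : Gr V) : Finset (Sym2 V) :=
  ((univ : Finset (V × V)).filter (fun p => A p.1 p.2 ≠ 0)).image (fun p => s(p.1, p.2))

/-- `P_A`, the product of all `t_u + t_v` over the edges `uv`. -/
noncomputable def PP {V : Type} [Fintype V] [DecidableEq V] (A : Gr V) : R V :=
  ∏ e ∈ edg A, fac e

/-- `P_J = d_J P_A`. -/
noncomputable def PJ {V : Type} [Fintype V] [DecidableEq V] (A : Gr V) (J : Finset V) : R V :=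
  dd J (PP A)

/-- Contraction of `w` into `w'` (inside the same `V`; `w` becomes isolated). -/
def ctr {V : Type} [DecidableEq V] (w w' : V) (A : Gr V) : Gr V :=
  fun u v => if u = w ∨ v = w ∨ u = v then 0
    else if u = w' then A w' v + A w v
    else if v = w' then A u w' + A u w
    else A u v

/-- The substitution `t_w ↦ t_{w'}`. -/
noncomputable def sg {V : Type} [DecidableEq V] (w w' : V) : R V →ₐ[ZMod 2] R V :=
  rename (fun v => if v = w then w' else v)

end Pool.Agent.W390.SD
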