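import Pool.Agent.W390.SD.Defs

/-!
# Project SD, part 1: polynomials, linear algebra, tightness, contraction (statements)

Notation in the proofs: `P = PP A`, `d_J = dd J`, `P_J = PJ A J = d_J P`, `L = Lap A`,
`x_v = t_v^2` (all `pderiv` of `x_v` vanish: characteristic 2), `s = sg w w'`.
`const` means: all (relevant) partial derivatives vanish.
-/

namespace Pool.Agent.W390.SD

open MvPolynomial Finset

open Classical in
/-- Even part: keep the monomials all of whose exponents are even. -/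
noncomputable def evp {V : Type} (f : R V) : R V :=
  ∑ m ∈ f.support, if (∀ v, Even (m v)) then monomial m (coeff m f) else 0

/-- rename `b` and `b'` -/
def sw {V : Type} [DecidableEq V] (b b' : V) (T : Gr V) : Gr V :=
  fun u v => T (Equiv.swap b b' u) (Equiv.swap b b' v)

/-- uniform even graphs -/
def Unif {V : Type} [Fintype V] [DecidableEq V] (G : Gr V) : Prop :=
  IsEv G ∧ ∀ C ⊆ supp G, C.card ≤ nu G → PJ G C ≠ 0

/-- good edges -/
def good {V : Type} [Fintype V] [DecidableEq V] (G : Gr V) (w w' : V) : Prop :=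
  G w w' ≠ 0 ∧ nu (ctr w w' G) + 1 = nu G

/-! ## A. Polynomials -/

/-- A1. API of `dd` (iterated `pderiv`; the `pderiv`s commute and `pderiv v (pderiv v p) = 0` in
characteristic 2: on `t_v^k` it gives `k(k-1) = 0`). -/
def S_dd : Prop := ∀ (V : Type) [DecidableEq V],
  (∀ p : R V, dd (∅ : Finset V) p = p) ∧
  (∀ (J : Finset V) (v : V) (p : R V), v ∉ J → dd (insert v J) p = pderiv v (dd J p)) ∧
  (∀ (J : Finset V) (v : V) (p : R V), dd J (pderiv v p) = pderiv v (dd J p)) ∧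
  (∀ (J : Finset V) (v : V) (p : R V), v ∈ J → pderiv v (dd J p) = 0) ∧
  (∀ (J : Finset V) (c p : R V), (∀ j ∈ J, pderiv j c = 0) → dd J (c * p) = c * dd J p) ∧
  (∀ (J : Finset V) (u : V) (p : R V),
    dd J (X u * p) = X u * dd J p + if u ∈ J then dd (J.erase u) p else 0) ∧
  (∀ (J J' : Finset V) (p : R V), J ⊆ J' → dd J' p ≠ 0 → dd J p ≠ 0)

/-- A2. `dd` and the substitution `t_w ↦ t_{w'}`. -/
def S_ddsg : Prop := ∀ (V : Type) [DecidableEq V] (w w' : V), w ≠ w' →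
  (∀ (J : Finset V) (p : R V), w ∉ J → w' ∉ J → sg w w' (dd J p) = dd J (sg w w' p)) ∧
  (∀ p : R V, pderiv w' (sg w w' p) = sg w w' (pderiv w p + pderiv w' p)) ∧
  (∀ p : R V, pderiv w (sg w w' p) = 0)

/-- A3. Divisibility: a polynomial even in `t_w` vanishing at `t_w = t_{w'}` is divisible by
`x_w + x_{w'}` (factor theorem in the variable `x_w`). -/
def S_dvd : Prop := ∀ (V : Type) [DecidableEq V] (w w' : V) (f : R V), w ≠ w' →
  pderiv w f = 0 → sg w w' f = 0 → (xx w + xx w') ∣ f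

/-- A4. Interpolation: `x_w`-degree at most `a` and more than `a` zeros `x_w = x_{w'}`. -/
def S_interp : Prop := ∀ (V : Type) [DecidableEq V] (w : V) (Z : Finset V) (a : ℕ) (f : R V),
  pderiv w f = 0 → degreeOf w f ≤ 2 * a → w ∉ Z → (∀ w' ∈ Z, sg w w' f = 0) → a < Z.card → f = 0

/-- A5. Interpolation with double zeros. -/
def S_interp2 : Prop := ∀ (V : Type) [DecidableEq V] (w : V) (Z : Finset V) (a : ℕ) (f : R V),
  pderiv w f = 0 → degreeOf w f ≤ 2 * a → w ∉ Z → (∀ w' ∈ Z, (xx w + xx w') ^ 2 ∣ f) →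
  a < 2 * Z.card → f = 0

/-- A6. Degrees of `P_J`.  `P` has `t_w`-degree `deg w`, and `d_w` kills the even powers, so (as
`deg w` is even) `P_J` with `w ∈ J` has `t_w`-degree at most `deg w - 2`. -/
def S_deg : Prop := ∀ (V : Type) [Fintype V] [DecidableEq V] (A : Gr V) (J : Finset V) (w : V),
  IsEv A → degreeOf w (PJ A J) ≤ (nbr A w).card ∧
    (w ∈ J → PJ A J ≠ 0 → degreeOf w (PJ A J) + 2 ≤ (nbr A w).card)

/-- A7. Number of zeros: for `w ∈ J`, `P_J ≠ 0`, the nonzero polynomial `P_J` is even in `t_w`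
and has `x_w`-degree at most `(deg w - 2)/2`, so at most that many neighbours `w'` are zeros. -/
def S_cnt : Prop := ∀ (V : Type) [Fintype V] [DecidableEq V] (A : Gr V) (J : Finset V) (w : V),
  IsEv A → w ∈ J → PJ A J ≠ 0 → ∀ Z ⊆ nbr A w, (∀ w' ∈ Z, sg w w' (PJ A J) = 0) →
    2 * Z.card + 2 ≤ (nbr A w).card

/-- A8. Contraction of an edge `w w'` and `P_J`, `w ∈ J`:
`P = (t_w + t_{w'}) P'` and `s(P') = q^2 PP (ctr w w' A)`, `q = prod of (t_u + t_{w'})` over the
common neighbours `u`; `d_w P = P' + (t_w + t_{w'}) d_w P'`.  If `w' ∉ J` apply `d_{J - w}` and `s`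
(they commute).  If `w' ∈ J`: `s(d_{w'} d_w P) = s((d_w + d_{w'}) P') = d_{w'} s(P')` (chain rule). -/
def S_ctr_edge : Prop := ∀ (V : Type) [Fintype V] [DecidableEq V] (A : Gr V) (J : Finset V)
  (w w' : V), IsEv A → A w w' ≠ 0 → w ∈ J →
  sg w w' (PJ A J) = (∏ u ∈ nbr A w ∩ nbr A w', (X u + X w')) ^ 2 * PJ (ctr w w' A) (J.erase w)

/-- A9. The case `w, w' ∉ J`: for an edge `w w'` the value is 0 (a factor `t_w + t_{w'}` remains),
for a non-edge it is `q^2 PJ (ctr w w' A) J`; and for an edge, `PJ A J = (t_w + t_{w'}) Q` with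
`s(Q) = q^2 PJ (ctr w w' A) J`. -/
def S_ctr_out : Prop := ∀ (V : Type) [Fintype V] [DecidableEq V] (A : Gr V) (J : Finset V)
  (w w' : V), IsEv A → w ≠ w' → w ∉ J → w' ∉ J →
  (A w w' = 0 → sg w w' (PJ A J) =
    (∏ u ∈ nbr A w ∩ nbr A w', (X u + X w')) ^ 2 * PJ (ctr w w' A) J) ∧
  (A w w' ≠ 0 → ∃ Q : R V, PJ A J = (X w + X w') * Q ∧
    sg w w' Q = (∏ u ∈ nbr A w ∩ nbr A w', (X u + X w')) ^ 2 * PJ (ctr w w' A) J)

/-! ## B. `P_J` and the matrix `L` -/

/-- B1. Logarithmic derivative.  In `F`: `d_v P = (sum_{u ~ v} 1/(t_u + t_v)) P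
= (sum_u L_{vu} t_u) P`; multiply by `prod_{u ~ v} (x_u + x_v)` (a constant), apply `d_K` and use
`d_K (t_u P) = t_u d_K P + [u ∈ K] d_{K-u} P`. -/
def S_dlog : Prop := ∀ (V : Type) [Fintype V] [DecidableEq V] (A : Gr V) (K' : Finset V) (v : V),
  IsEv A → algebraMap (R V) (F V) (pderiv v (PJ A K')) =
    ∑ u, Lap A v u * algebraMap (R V) (F V)
      (X u * PJ A K' + if u ∈ K' then PJ A (K'.erase u) else 0)

/-- B2. Kernel vectors: apply `d_v` to B1 (entries of `L` are constants; clear denominators):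
if `P_{K+v} = 0` then `c_v = P_K`, `c_u = P_{K-u+v}` (`u ∈ K`), `c_u = 0` else, is in `ker L`. -/
def S_ker : Prop := ∀ (V : Type) [Fintype V] [DecidableEq V] (A : Gr V) (K' : Finset V) (v : V),
  IsEv A → v ∉ K' → PJ A (insert v K') = 0 →
  (Lap A).mulVec (fun u => algebraMap (R V) (F V)
    (if u = v then PJ A K' else if u ∈ K' then PJ A (insert v (K'.erase u)) else 0)) = 0

/-- B3. Polynomial solution operator: take even parts in B1 (`evp` is linear over constants). -/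
def S_sol : Prop := ∀ (V : Type) [Fintype V] [DecidableEq V] (A : Gr V) (K' : Finset V), IsEv A →
  (Lap A).mulVec (fun u => algebraMap (R V) (F V)
    (evp (X u * PJ A K' + if u ∈ K' then PJ A (K'.erase u) else 0))) =
  fun v => algebraMap (R V) (F V) (evp (pderiv v (PJ A K')))

/-- B4. `P_J ≠ 0` iff the columns `J` of `L` are independent.
If `sum_{j ∈ J} c_j L_j = 0`, `c_{j0} ≠ 0`: by B1 with `K = J - j0` and the symmetry of `L`,
`0 = sum_j c_j d_j d_K P = c_{j0} P_J`.  Conversely if `P_J = 0` take `K ⊆ J` maximal with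
`P_K ≠ 0` and `v ∈ J - K`: B2 gives a nonzero kernel vector supported on `K + v ⊆ J`. -/
def S_ind : Prop := ∀ (V : Type) [Fintype V] [DecidableEq V] (A : Gr V) (J : Finset V), IsEv A →
  (PJ A J ≠ 0 ↔ nuC A J = J.card)

/-- B5. Bases (from B4 and linear algebra). -/
def S_basis : Prop := ∀ (V : Type) [Fintype V] [DecidableEq V] (A : Gr V), IsEv A →
  nuC A univ = nu A ∧
  (∀ C C' : Finset V, C ⊆ C' → nuC A C ≤ nuC A C') ∧
  (∀ C : Finset V, nuC A C ≤ C.card) ∧
  (∀ C J₀ : Finset V, J₀ ⊆ C → PJ A J₀ ≠ 0 →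
    ∃ J, J₀ ⊆ J ∧ J ⊆ C ∧ J.card = nuC A C ∧ PJ A J ≠ 0) ∧
  (∀ C J : Finset V, J ⊆ C → PJ A J ≠ 0 → J.card ≤ nuC A C) ∧
  (∀ C J : Finset V, J ⊆ C → J.card = nuC A C → ∀ v ∈ C, pderiv v (PJ A J) = 0) ∧
  (∀ v ∈ supp A, PJ A {v} ≠ 0) ∧ (∀ J : Finset V, PJ A J ≠ 0 → J ⊆ supp A)

/-- B6. `rk` formula: `L` symmetric, so the restriction of `ker L` to `B` has annihilator
`range L ∩ F^B`, and `dim (range L ∩ F^B) = nu - nuC (complement of B)`. -/
def S_rk : Prop := ∀ (V : Type) [Fintype V] [DecidableEq V] (A : Gr V) (B : Finset V), IsEv A →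
  rk A B + nu A = B.card + nuC A Bᶜ

/-- B7. `Lap` is additive (mod 2 sums), symmetric; evenness is preserved by sums. -/
def S_add : Prop := ∀ (V : Type) [Fintype V] [DecidableEq V] (A B : Gr V),
  Lap (A + B) = Lap A + Lap B ∧ (IsEv A → IsEv B → IsEv (A + B)) ∧ A + A = 0 ∧
  (IsEv A → (Lap A).IsSymm) ∧ nu (A + B) ≤ nu A + nu B

/-- B8. `nu A = 0` iff `A = 0`; constants and `x` are in the kernel, so `nu A + 2 ≤ |supp A|`
for `A ≠ 0` (restricted to `supp A` they are independent; `L` is supported on `supp A`). -/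
def S_zero : Prop := ∀ (V : Type) [Fintype V] [DecidableEq V] (A : Gr V), IsEv A →
  (nu A = 0 ↔ A = 0) ∧ (A ≠ 0 → nu A + 2 ≤ (supp A).card) ∧
  (Lap A).mulVec (fun _ => 1) = 0 ∧ (Lap A).mulVec xF = 0

/-- B9. Parity: `P_J` (`|J| = nu`, `P_J ≠ 0`) is a constant (B5), i.e. a polynomial in the `x_v`,
homogeneous of degree `|E| - nu` in `t`, so `nu = |E|` mod 2; `|E|` mod 2 is additive. -/
def S_par : Prop := ∀ (V : Type) [Fintype V] [DecidableEq V] (A B : Gr V), IsEv A → IsEv B →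
  Even (nu A + nu B + nu (A + B))

/-- B10. The universal quadratic form: `sum_v g_v (L g)_v = sum_u x_u (L g)_u^2`, because
`L_{vv} = sum_u x_u L_{vu}^2` and the off-diagonal terms of `g^T L g` cancel. -/
def S_qd : Prop := ∀ (V : Type) [Fintype V] [DecidableEq V] (A : Gr V) (g : V → F V), IsEv A →
  ∑ v, g v * (Lap A).mulVec g v = ∑ u, xF u * ((Lap A).mulVec g u) ^ 2

/-! ## C. Tightness (linear algebra of symmetric matrices; `Lap` additive) -/

/-- C1. For symmetric matrices `M = H + H'`: `rank M = rank H + rank H'` iff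
`range H ⊆ range M` and `M g = H h → H g = H h`. -/
def S_tiff : Prop := ∀ (V : Type) [Fintype V] [DecidableEq V] (G H : Gr V), IsEv G → IsEv H →
  (Tight H G ↔ (∀ h, ∃ g, (Lap G).mulVec g = (Lap H).mulVec h) ∧
    (∀ g h, (Lap G).mulVec g = (Lap H).mulVec h → (Lap H).mulVec g = (Lap H).mulVec h))

/-- C2. Consequences of tightness. -/
def S_tcons : Prop := ∀ (V : Type) [Fintype V] [DecidableEq V] (G H : Gr V), IsEv G → Tight H G →
  (∀ f, (Lap G).mulVec f = 0 → (Lap H).mulVec f = 0) ∧ supp H ⊆ supp G ∧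
  (∀ B, rk G B ≤ rk H B) ∧ (∀ C, nuC H C ≤ nuC G C) ∧ Tight (G + H) G ∧
  (∀ T, Tight T H → Tight T G)

/-- C3. Orthogonality of tight parts. -/
def S_oiff : Prop := ∀ (V : Type) [Fintype V] [DecidableEq V] (G H₁ H₂ : Gr V), IsEv G →
  Tight H₁ G → Tight H₂ G → (Orth H₁ H₂ G ↔ ∀ g h, (Lap G).mulVec g = (Lap H₂).mulVec h →
    (Lap H₁).mulVec g = 0)

/-- C4. More on orthogonality: symmetric; additive; the sum is tight; tight in the complement. -/
def S_ocons : Prop := ∀ (V : Type) [Fintype V] [DecidableEq V] (G H₁ H₂ : Gr V), IsEv G →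
  Tight H₁ G → Tight H₂ G → Orth H₁ H₂ G →
  Orth H₂ H₁ G ∧ Tight (H₁ + H₂) G ∧ nu (H₁ + H₂) = nu H₁ + nu H₂ ∧ Tight H₁ (G + H₂) ∧
  (∀ H₃, Tight H₃ G → Orth H₁ H₃ G → Orth H₂ H₃ G → Orth (H₁ + H₂) H₃ G)

/-- C5. Every even graph is a tight sum of indecomposables (induction on `nu`). -/
def S_decomp : Prop := ∀ (V : Type) [Fintype V] [DecidableEq V] (G : Gr V), IsEv G →
  ∃ L : List (Gr V), (∀ H ∈ L, Indec H ∧ Tight H G) ∧ L.sum = G ∧ (L.map nu).sum = nu G

/-- C6. If `G` is the tight sum of `L` and `T` is tight in `G`, let `L'` be the list of those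
members of `L` which are not orthogonal to `T` in `G`; then `T` is tight in `L'.sum`, which is tight
in `G` (projections: `T` kills the other ranges).  In particular if all are orthogonal, `T = 0`. -/
def S_dorth : Prop := ∀ (V : Type) [Fintype V] [DecidableEq V] (G T : Gr V) (L : List (Gr V)),
  IsEv G → (∀ H ∈ L, Tight H G) → L.sum = G → (L.map nu).sum = nu G → Tight T G →
  ∀ (p : Gr V → Bool), (∀ H ∈ L, p H = false → Orth T H G) →
    Tight T (L.filter p).sum ∧ Tight (L.filter p).sum G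

/-- C7. Collinear triples give tight triangles.  `d = (x_q+x_s, x_p+x_s, x_p+x_q)` on `p,q,s` is
orthogonal to `ker L_G` (affine functions), hence in the range; `Lap (K {p,q,s}) = c d d^T`; the
second condition of C1 follows from B10 (`sum_u x_u d_u^2 = (x_p+x_q)(x_q+x_s)(x_s+x_p)`). -/
def S_tri : Prop := ∀ (V : Type) [Fintype V] [DecidableEq V] (G : Gr V) (S : Finset V), IsEv G →
  S.card = 3 → rk G S ≤ 2 → Tight (K S) G

/-- C8. Cliques: `IsEv`, `supp`, `nu (K S) = (|S|-1)/2`. Proof of `nu`: `≥`: by contraction of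
edges (each contraction lowers `nu` by at least 1 and gives the clique without the two ends);
`≤`: `PP (K S)` is the Vandermonde determinant `det (t_i^j)`; a derivative `d_J` of it keeps in
the rows of `J` only the `k = (|S|-1)/2` odd columns, so it vanishes for `|J| > k`. -/
def S_clique : Prop := ∀ (V : Type) [Fintype V] [DecidableEq V] (S : Finset V), Odd S.card →
  IsEv (K S) ∧ (3 ≤ S.card → supp (K S) = S) ∧ 2 * nu (K S) + 1 = S.card ∧ (S.card = 1 → K S = 0)

/-! ## D. Contraction -/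

/-- D1. Elementary facts on `ctr` (`w ≠ w'`). -/
def S_ctr : Prop := ∀ (V : Type) [Fintype V] [DecidableEq V] (A B : Gr V) (w w' : V), w ≠ w' →
  IsEv A → IsEv B →
  IsEv (ctr w w' A) ∧ ctr w w' (A + B) = ctr w w' A + ctr w w' B ∧
  (w ∉ supp A → ctr w w' A = A) ∧ w ∉ supp (ctr w w' A) ∧
  (supp (ctr w w' A) ⊆ insert w' ((supp A).erase w)) ∧
  (w' ∈ supp A → supp (ctr w w' A) ⊆ (supp A).erase w) ∧
  (w' ∉ supp A → ctr w w' A = sw w w' A)

/-- D2. Commutation of contractions of disjoint pairs. -/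
def S_ctrcomm : Prop := ∀ (V : Type) [Fintype V] [DecidableEq V] (A : Gr V) (w w' u u' : V),
  IsEv A → w ≠ w' → u ≠ u' → w ≠ u → w ≠ u' → w' ≠ u →
  ctr w w' (ctr u u' A) = ctr u u' (ctr w w' A)

/-- D3. Contraction of cliques. -/
def S_ctrK : Prop := ∀ (V : Type) [Fintype V] [DecidableEq V] (S : Finset V) (w w' : V),
  Odd S.card → w ∈ S → w ≠ w' →
  (w' ∈ S → ctr w w' (K S) = K ((S.erase w).erase w')) ∧
  (w' ∉ S → ctr w w' (K S) = K (insert w' (S.erase w)))

/-- D4. Ranks under contraction.  Edge: if `PJ (ctr w w' A) J' ≠ 0`, `w ∉ J'`, then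
`PJ A (insert w J') ≠ 0` by A8.  Non-edge: A9, and for `w' ∈ J'`:
`s((d_w + d_{w'}) d_{J'-w'} P) = q^2 d_{J'} PP (ctr w w' A)`. -/
def S_ctrnu : Prop := ∀ (V : Type) [Fintype V] [DecidableEq V] (A : Gr V) (w w' : V), IsEv A →
  w ≠ w' → nu (ctr w w' A) ≤ nu A ∧
  (A w w' ≠ 0 → ∀ C : Finset V, w ∈ C → nuC (ctr w w' A) (C.erase w) + 1 ≤ nuC A C) ∧
  (A w w' ≠ 0 → nu (ctr w w' A) + 1 ≤ nu A) ∧
  (∀ J, w ∈ J → A w w' ≠ 0 → sg w w' (PJ A J) ≠ 0 → PJ (ctr w w' A) (J.erase w) ≠ 0) ∧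
  (∀ J, w ∈ J → A w w' ≠ 0 → J.card = nu A → sg w w' (PJ A J) ≠ 0 → good A w w') ∧
  (good A w w' → ∀ B : Finset V, w ∉ B → rk (ctr w w' A) B ≤ rk A B)

/-- D5. Tight parts and good contractions: `w w'` is an edge of exactly one of `H`, `G + H`,
and `nu G - 1 = nu (ctr G) ≤ nu (ctr H) + nu (ctr (G+H)) ≤ nu G - 1`. -/
def S_ctrt : Prop := ∀ (V : Type) [Fintype V] [DecidableEq V] (G H : Gr V) (w w' : V), IsEv G →
  Tight H G → good G w w' → Tight (ctr w w' H) (ctr w w' G) ∧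
  (H w w' ≠ 0 → good H w w') ∧ (H w w' = 0 → nu (ctr w w' H) = nu H)

/-- D6. `sw` preserves everything. -/
def S_sw : Prop := ∀ (V : Type) [Fintype V] [DecidableEq V] (b b' : V) (A B : Gr V),
  (IsEv A → IsEv (sw b b' A)) ∧ nu (sw b b' A) = nu A ∧ sw b b' (A + B) = sw b b' A + sw b b' B ∧
  sw b b' (sw b b' A) = A ∧ (Indec A → Indec (sw b b' A)) ∧ (Tight A B → Tight (sw b b' A) (sw b b' B)) ∧
  supp (sw b b' A) = (supp A).image (Equiv.swap b b') ∧
  (∀ C : Finset V, rk (sw b b' A) (C.image (Equiv.swap b b')) = rk A C)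

/-- D7. Nonadjacent twins are in contact: `A w w' = 0`, `nbr A w = nbr A w' ≠ ∅` imply
`nu (ctr w w' A) + 2 ≤ nu A`.  Proof: `A = ctr w w' A + Q` is not used; contract instead by
polynomials: with `D = nbr A w`, `PP A = PP (ctr) * prod_{u ∈ D} (t_w+t_u)(t_{w'}+t_u)` (here
`ctr w w' A` is `A` without `w, w'`).  Let `J` be independent for `ctr w w' A`, `|J| = nu (ctr)`,
and put `Pi = prod_{u ∈ D} (t_w+t_u)(t_{w'}+t_u)`, so `d_w d_{w'} Pi = a_w a_{w'} Pi` with
`a_w = sum_{u ∈ D} 1/(t_w + t_u)`.  One has `d_J d_w d_{w'} PP A ≠ 0`: at `t_{w'} = t_w` it becomes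
`d_J (PP (ctr) * (a_w Pi_w)^2)`, `Pi_w = prod_{u ∈ D} (t_w+t_u)`, and `(a_w Pi_w)^2` is a nonzero
constant, so it is `(a_w Pi_w)^2 d_J PP (ctr) ≠ 0`. -/
def S_twin : Prop := ∀ (V : Type) [Fintype V] [DecidableEq V] (A : Gr V) (w w' : V), IsEv A →
  w ≠ w' → A w w' = 0 → nbr A w = nbr A w' → w ∈ supp A → nu (ctr w w' A) + 2 ≤ nu A

/-- D8. Specialisation of solutions: `L_Y g = y` with polynomial constants `g, y`
and an edge `w w'`.  Then `s(g_w) = s(g_{w'})` and `s(g)` solves the system of `ctr w w' Y`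
with right-hand side `y` folded. -/
def S_spec : Prop := ∀ (V : Type) [Fintype V] [DecidableEq V] (Y : Gr V) (w w' : V)
  (g y : V → R V), IsEv Y → Y w w' ≠ 0 →
  (Lap Y).mulVec (fun u => algebraMap (R V) (F V) (g u)) = (fun u => algebraMap (R V) (F V) (y u)) →
  sg w w' (g w) = sg w w' (g w') ∧
  (Lap (ctr w w' Y)).mulVec (fun u => algebraMap (R V) (F V) (sg w w' (g u))) =
    (fun u => algebraMap (R V) (F V) (if u = w then 0 else if u = w' then sg w w' (y w + y w')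
      else sg w w' (y u)))

end Pool.Agent.W390.SD
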