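import Pool.Agent.W390.SD.Stm1

/-!
# Project SD, part 2: Theorem A, uniqueness, first order lemma, zero bound (statements)

Notation as in `Stm1`: `P_J = PJ A J`, `s = sg w w'`, `const`: all `pderiv` vanish
(equivalently: polynomial in the `x_v`).  Products and `sg`-images of constants are constants;
if `k ≠ 0` is a constant and `k f` is a constant then so is `f`.
-/

namespace Pool.Agent.W390.SD

open MvPolynomial Finset

/-- `ι` : keep all variables -/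
noncomputable def io {V : Type} : R V →ₐ[ZMod 2] R (Option V) := rename some

/-- `τ_u` : replace `t_u` by a new variable -/
noncomputable def ta {V : Type} [DecidableEq V] (u : V) : R V →ₐ[ZMod 2] R (Option V) :=
  rename (fun v => if v = u then none else some v)

/-- `Q` is, up to constants, independent of `x_u`. -/
def IndepOf {V : Type} [DecidableEq V] (u : V) (Q : R V) : Prop :=
  ∀ p : V, io Q * ta u (pderiv p Q) + ta u Q * io (pderiv p Q) = 0

/-! ## E. Theorem A: dependent sets give tight parts -/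

/-- E1.  `u ∈ C`, `P_C = 0` ⇒ `Q = P_{C-u}` is independent of `x_u`.  Induction on `|C|`.
`C = {u}`: `u` is isolated (`S_basis`), so `t_u` does not occur and `ta u Q = io Q`.
Otherwise take `w ∈ C - u`; if `w` is isolated then `Q = 0`.  Let `Φ` be the expression for `p`.
For `p = w`: `pderiv w Q = 0`.  For `p ≠ w`: `Φ` is even in `t_{some w}` and has degree at most
`2 (deg w - 2)` in it (`S_deg`; `pderiv p` does not raise degrees).  For each of the at least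
`deg w - 1` neighbours `w' ≠ u` of `w`: `sg (some w) (some w')` commutes with `io` and `ta u`
(as `w, w' ≠ u`), `s Q = q^2 PJ G' (C' - u)` with `G' = ctr w w' G`, `C' = C - w`,
and `q^2 PJ G' C' = s P_C = 0`; `s (pderiv p Q) = pderiv p (s Q)` (for `p = w'` use
`pderiv w Q = 0` and the chain rule).  So `sg Φ = io(q^2) ta(q^2) Φ' = 0` by induction, and
`S_interp` (in `Option V`, with `a = deg w - 2`) gives `Φ = 0`. -/
def S_claim1 : Prop := ∀ (V : Type) [Fintype V] [DecidableEq V] (G : Gr V) (C : Finset V) (u : V),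
  IsEv G → u ∈ C → PJ G C = 0 → IndepOf u (PJ G (C.erase u))

/-- E2.  If `Q` is independent of `x_u` and `pderiv u Q = 0` then `Q * sg u w' Q` is a constant
(`w' ≠ u`): apply `none ↦ X w'`, `some v ↦ X v` to the identity: `Q s(d_p Q) + s(Q) d_p Q = 0`,
and `s(d_p Q) = d_p s(Q)` for `p ≠ u` (chain rule for `p = w'`), so `d_p (Q s(Q)) = 0`; for
`p = u` both factors have `d_u = 0`. -/
def S_const : Prop := ∀ (V : Type) [DecidableEq V] (Q : R V) (u w' : V), w' ≠ u →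
  pderiv u Q = 0 → IndepOf u Q → ∀ p, pderiv p (Q * sg u w' Q) = 0

/-- E3.  If `Q = P_J ≠ 0` is independent of `x_u` for all `u ∈ J` then `c₁ Q = c₂ PP H` with
nonzero constants and an even graph `H` off `J`.  Induction on `|J|`: take `u ∈ J` and a neighbour
`w'` with `Q' = sg u w' Q ≠ 0` (`S_cnt`), `Q' = q^2 Q₁`, `Q₁ = PJ (ctr u w' G) (J.erase u)`.
By E2 `c = Q Q'` is a constant, so `(Q₁^2 q^2) Q = c Q₁`; hence `Q₁` is also independent of the
`x_{u'}` (multiply the identity for `Q₁` by `io c * ta c ≠ 0`), induction gives `H`. -/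
def S_hex : Prop := ∀ (V : Type) [Fintype V] [DecidableEq V] (G : Gr V) (J : Finset V), IsEv G →
  PJ G J ≠ 0 → (∀ u ∈ J, IndepOf u (PJ G J)) →
  ∃ H : Gr V, IsEv H ∧ Disjoint (supp H) J ∧ ∃ c₁ c₂ : R V, c₁ ≠ 0 ∧ c₂ ≠ 0 ∧
    (∀ p, pderiv p c₁ = 0) ∧ (∀ p, pderiv p c₂ = 0) ∧ c₁ * PJ G J = c₂ * PP H

/-- E4.  Then `H` is tight in `G` and `nu (G + H) = |J|`.  By `S_dlog` for `G` (with `K = J`) and
for `H` (with `K = ∅`, multiplied by constants), with `Q = P_J`: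
`sum_u Lap(G+H)_{vu} t_u Q = sum_{u ∈ J} Lap(G)_{vu} P_{J-u}` for all `v`.  Let `Sp` be the span of
the columns `J` of `Lap G`; the vector `M t`, `M = Lap (G+H)`, is in `Sp`; apply `d_w`
(`w ∉ J`; clear denominators): `M_w Q + (M t) d_w Q ∈ Sp`, so the column `M_w ∈ Sp`; for `w ∈ J`
the column `w` of `M` is that of `Lap G`.  So `nu (G+H) ≤ |J|`.  If `PJ H J' ≠ 0`, `|J'| = nu H`
then `J' ⊆ supp H`, `d_{J'} (c₁ Q) = c₂ PJ H J' ≠ 0`, so `nu G ≥ |J| + nu H`.  With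
`nu G ≤ nu H + nu (G+H)` all are equalities. -/
def S_ta0 : Prop := ∀ (V : Type) [Fintype V] [DecidableEq V] (G H : Gr V) (J : Finset V), IsEv G →
  IsEv H → Disjoint (supp H) J → PJ G J ≠ 0 →
  (∃ c₁ c₂ : R V, c₁ ≠ 0 ∧ c₂ ≠ 0 ∧ (∀ p, pderiv p c₁ = 0) ∧ (∀ p, pderiv p c₂ = 0) ∧
    c₁ * PJ G J = c₂ * PP H) → Tight H G ∧ nu (G + H) = J.card

/-- E5. Theorem A.  Put `Q_v = P_{C-v}`.  By `S_ker` the vector `(Q_v)_{v ∈ C}` is in `ker L`, and
the kernel vectors supported on `C` form a line (`C - v` is independent).  Apply `d_p` (entries of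
`L` constant): `(d_p Q_v)_v` is in the same line: `d_p Q_v = λ_p Q_v` for all `v ∈ C`, so
`d_p (Q_u Q_v) = 0`: `Q_u Q_v` is a nonzero constant.  By E1 `Q_u` is independent of `x_u`, hence so
is `Q_v` (`Q_u^2 Q_v = (Q_u Q_v) Q_u`), for all `u ∈ C - v`.  Apply E3, E4 with `J = C - v`. -/
def S_TA : Prop := ∀ (V : Type) [Fintype V] [DecidableEq V] (G : Gr V) (C : Finset V), IsEv G →
  PJ G C = 0 → (∀ v ∈ C, PJ G (C.erase v) ≠ 0) → 2 ≤ C.card →
  ∃ H : Gr V, Tight H G ∧ nu (G + H) + 1 = C.card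

/-- E6. Indecomposable graphs are uniform: a minimal bad `C ⊆ supp G` (`|C| ≤ nu G`, `P_C = 0`)
has at least 2 elements (`S_basis`) and gives a tight `H` with `1 ≤ nu (G+H) = |C|-1 < nu G`. -/
def S_unif : Prop := ∀ (V : Type) [Fintype V] [DecidableEq V] (G : Gr V), Indec G → Unif G

/-- E7. Ranks in uniform graphs. -/
def S_unifrk : Prop := ∀ (V : Type) [Fintype V] [DecidableEq V] (G : Gr V), Unif G →
  (∀ B ⊆ supp G, rk G B = min B.card ((supp G).card - nu G)) ∧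
  (∀ C ⊆ supp G, nuC G C = min C.card (nu G))

/-- E8. Degrees in uniform graphs of rank `r`: `deg w ≥ 2 (r-1)`.  Let `A ⊆ nbr w` have
`min (r-1) (deg w)` elements, `A ⊆ B ⊆ supp - w`, `|B| = r-1`, `J = supp - B - w`, `|J| = nu`.
`P_J ≠ 0` is even in `t_w` (`S_basis`), of degree `≤ deg w`, and vanishes at `t_w = t_v`, `v ∈ A`
(`S_ctr_out`), so `2 |A| ≤ deg w` (`S_interp`). -/
def S_degbd : Prop := ∀ (V : Type) [Fintype V] [DecidableEq V] (G : Gr V) (w : V) (r : ℕ), Unif G →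
  w ∈ supp G → nu G + r = (supp G).card → 2 * (r - 1) ≤ (nbr G w).card

/-! ## U. Uniqueness -/

/-- uniqueness for graphs with at most `n` non-isolated vertices -/
def UQn (V : Type) [Fintype V] [DecidableEq V] (n : ℕ) : Prop :=
  ∀ Y T₁ T₂ : Gr V, IsEv Y → (supp Y).card ≤ n → Indec T₁ → Indec T₂ → Tight T₁ Y → Tight T₂ Y →
    T₁ ≠ T₂ → 3 ≤ rk Y (supp T₁ ∪ supp T₂) → Orth T₁ T₂ Y

/-- U1. Interpolation of orthogonality.  By `S_oiff` we must show `L₁ g = 0` whenever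
`L_Y g = L₂ h`; enough for `h = e_j`, and for one solution `g` (kernel vectors of `L_Y` are killed
by `L₁`, `S_tcons`).  Let `D = prod over pairs u<v in supp H₂ of (x_u + x_v)` (free of `x_w`),
`y = D L₂ e_j` (polynomial constants, supported on `supp H₂`, `y ∈ range L_Y`).
`g := sum_{b ∈ J} y_b g^{J-b}` with `g^K_u = evp (X u * PJ Y K + [u ∈ K] PJ Y (K-u))` (`S_sol`);
`L_Y g^{J-b} = (evp d_v P_{J-b})_v` has entry `P_J` at `b` and 0 on `J - b`; so `L_Y g` and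
`P_J y` agree on `J` and both are in `range L_Y`, hence are equal (`J` independent, `|J| = nu`).
Degrees in `x_w`: `y_w = 0`, so only `b ≠ w` occur: `g_u` has `x_w`-degree `≤ a := (deg w-2)/2` for
`u ≠ w` and `≤ a+1` for `u = w` (`S_deg`).  For `i ≠ w` put
`X_i = sum_{u ~ i in H₁} (g_u + g_i) prod_{v ~ i, v ≠ u} (x_i + x_v)`
(`= (L₁ g)_i` times `prod (x_i + x_v)`), a constant.  Let `w'` be a neighbour of `w` in `Y` with
`s(P_J) ≠ 0`.  `S_spec` (with `y` replaced by `P_J y`): `s g` solves the system of `ctr w w' Y` with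
right-hand side `s(P_J) s(y)` (folding does nothing but renaming: `y_w = 0`), which is
`s(P_J D) Lap(ctr w w' H₂) e_j`, so by orthogonality in `ctr w w' Y`, `Lap (ctr w w' H₁) (s g) = 0`,
hence `s X_i = 0` for `i ≠ w, w'` (if `w, w'` are both `H₁`-neighbours of `i` their terms cancel,
using `s g_w = s g_{w'}`).  For `i = w'` and `w ~ i` in `H₁`: `s X_i = 0` too, because every term
contains `x_i + x_w` or `g_w + g_i`.  If `w ~ i` in `H₁`: `X_i` has `x_w`-degree `≤ a+1` and at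
least `a+2` zeros (`S_cnt`); otherwise degree `≤ a` and at least `a+1` zeros.  So `X_i = 0` for all
`i ≠ w`, i.e. `(L₁ g)_i = 0`; and `(L₁ g)_w = 0` because the entries of `L₁ g` sum to 0. -/
def S_gil : Prop := ∀ (V : Type) [Fintype V] [DecidableEq V] (Y H₁ H₂ : Gr V) (w : V)
  (J : Finset V), IsEv Y → Tight H₁ Y → Tight H₂ Y → w ∉ supp H₂ → w ∈ J → J.card = nu Y →
  PJ Y J ≠ 0 →
  (∀ w' ∈ nbr Y w, sg w w' (PJ Y J) ≠ 0 →
    Orth (ctr w w' H₁) (ctr w w' H₂) (ctr w w' Y)) → Orth H₁ H₂ Y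

/-- U2. Two nearby tight cliques force collinearity.  For `f ∈ ker L_Y` (so in both kernels) and
`v` in both cliques, subtract the two equations at `v`:
`(f_w + f_v)/(x_w + x_v) + (f_{w'} + f_v)/(x_{w'} + x_v) = 0`, so
`f_v (x_w + x_{w'}) = f_w (x_{w'} + x_v) + f_{w'} (x_w + x_v)`: affine in `x_v`. -/
def S_cl : Prop := ∀ (V : Type) [Fintype V] [DecidableEq V] (Y : Gr V) (S : Finset V) (w w' : V),
  IsEv Y → Odd S.card → w ∈ S → w ≠ w' → Tight (K S) Y →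
  (w' ∈ S → Tight (K ((S.erase w).erase w')) Y → rk Y S ≤ 2) ∧
  (w' ∉ S → Tight (K (insert w' (S.erase w))) Y → rk Y (insert w' S) ≤ 2)

/-- U3. Indecomposables of rank 2 are triangles; `nu = 1` means triangle; vertices of degree 2.
(a) for three points `S` of `supp T`: `rk T S ≤ rk T (supp T) = |supp T| - nu T = 2`, so
`Tight (K S) T` (`S_tri`).  (b) a rank one symmetric matrix with nonzero diagonal entries on the
support has all entries nonzero there, so `H = K (supp H)` and `nu (K S) = (|S|-1)/2`.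
(c) equation of the kernel at `v`. -/
def S_small : Prop := ∀ (V : Type) [Fintype V] [DecidableEq V] (T : Gr V),
  (Indec T → (supp T).card ≤ nu T + 2 → ∃ S : Finset V, S.card = 3 ∧ T = K S) ∧
  (IsEv T → nu T = 1 → ∃ S : Finset V, S.card = 3 ∧ T = K S) ∧
  (∀ v p q : V, p ≠ q → IsEv T → nbr T v = {p, q} → rk T {v, p, q} ≤ 2)

/-- U4. Odd cliques are indecomposable.  Induction on `|S| = 2k+1`; `k = 1`: `nu = 1`.
`k ≥ 2`: if `H`, `H' = K S + H` are both nonzero and (say) `nu H' ≥ 2`, take an edge `w w'` of `H'`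
(then not of `H`); it is good in `K S`; `ctr H'` is tight in the indecomposable
`K (S - w - w')` and nonzero (`nu = nu H' - 1`), so `ctr H = 0`, but `nu (ctr H) = nu H ≥ 1`. -/
def S_clind : Prop := ∀ (V : Type) [Fintype V] [DecidableEq V] (S : Finset V), Odd S.card →
  3 ≤ S.card → Indec (K S)

/-- U5. Distinct points are independent (`1, x ∈ ker L`), `rk` is monotone, unit increase,
submodular; vertices outside the support are coloops; disjoint supports are tight. -/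
def S_rkm : Prop := ∀ (V : Type) [Fintype V] [DecidableEq V] (A B : Gr V), IsEv A → IsEv B →
  (∀ C : Finset V, 2 ≤ C.card → 2 ≤ rk A C) ∧
  (∀ C C' : Finset V, C ⊆ C' → rk A C ≤ rk A C') ∧ (∀ C : Finset V, rk A C ≤ C.card) ∧
  (∀ (C : Finset V) (v : V), rk A (insert v C) ≤ rk A C + 1) ∧
  (∀ C C' : Finset V, rk A (C ∪ C') + rk A (C ∩ C') ≤ rk A C + rk A C') ∧
  (∀ C : Finset V, supp A ⊆ C → rk A C + nu A = C.card) ∧
  (∀ (C J : Finset V), J.card = nu A → PJ A J ≠ 0 → (C \ J).card ≤ rk A C) ∧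
  (Disjoint (supp A) (supp B) → nu (A + B) = nu A + nu B)

/-- U6. Step of uniqueness when a vertex `w ∈ supp Y` is outside both supports `S₁, S₂`.
Choose `J` with `PJ Y J ≠ 0`, `|J| = nu Y`, `w ∈ J`, `|(S₁ ∪ S₂) - J| ≥ 3` (start from a maximal
independent subset containing `w` of the complement of `S₁ ∪ S₂`, extend inside the
complement of a 3-element independent set... i.e. `S_basis` twice).  For a neighbour `w'` with
`sg w w' P_J ≠ 0`, `Y' = ctr w w' Y` is good, has smaller support, `T₁, T₂` (unchanged by the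
contraction) are tight in `Y'` and `rk Y' (S₁ ∪ S₂) ≥ 3` (`S_rkm`), so they are orthogonal in `Y'`.
If not orthogonal in `Y`, then `X = Y + T₁ + T₂` has `nu X > nu Y - nu T₁ - nu T₂`, while
`nu (ctr w w' X) = nu Y - 1 - nu T₁ - nu T₂`; `w` has the same neighbours in `X`; for
`J_X ∋ w` maximal independent for `X`, `sg w w' (PJ X J_X) = 0` for all these `w'`: there are at
least `deg w / 2 + 1` of them (`S_cnt` for `Y`), contradicting `S_cnt` for `X`. -/
def S_uqA : Prop := ∀ (V : Type) [Fintype V] [DecidableEq V] (n : ℕ) (Y T₁ T₂ : Gr V) (w : V),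
  UQn V n → IsEv Y → (supp Y).card ≤ n + 1 → Indec T₁ → Indec T₂ → Tight T₁ Y → Tight T₂ Y →
  T₁ ≠ T₂ → 3 ≤ rk Y (supp T₁ ∪ supp T₂) → w ∈ supp Y → w ∉ supp T₁ ∪ supp T₂ → Orth T₁ T₂ Y

/-- U7. `w ∈ S₁ - S₂`.  Decompose `ctr w w' T₁` (`S_decomp`); all its parts `P` are orthogonal
to `T₂` in `ctr w w' Y` by `UQn`, hence so is their sum (`S_ocons`); apply U1. -/
def S_uqB1 : Prop := ∀ (V : Type) [Fintype V] [DecidableEq V] (n : ℕ) (Y T₁ T₂ : Gr V) (w : V)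
  (J : Finset V), UQn V n → IsEv Y → (supp Y).card ≤ n + 1 → Indec T₁ → Indec T₂ →
  Tight T₁ Y → Tight T₂ Y → w ∈ supp T₁ → w ∉ supp T₂ → w ∈ J → J.card = nu Y → PJ Y J ≠ 0 →
  (∀ w' ∈ nbr Y w, sg w w' (PJ Y J) ≠ 0 → ∀ P : Gr V, Indec P → Tight P (ctr w w' T₁) →
    P ≠ T₂ ∧ 3 ≤ rk (ctr w w' Y) (supp P ∪ supp T₂)) → Orth T₁ T₂ Y

/-- U8. `P ≠ T₂` in U7.  Let `U = supp Y = S₁ ∪ S₂`, `rk Y U ≥ 3`, `w ∈ S₁ - S₂`, `w w'` good,
`P` indecomposable tight in `ctr w w' T₁`; suppose `P = T₂`.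
(1) `T₁ = K S`: `ctr` is `K (S-w-w')` or `K (S-w+w')` (or 0), indecomposable, so equals `T₂`;
`S_cl`: `rk Y U ≤ 2`.  (2) otherwise `|S₁| = nu T₁ + 3` (`Basic`, `S_small`).  If `S₁ = U` then
`nu Y ≤ |U| - 3 = nu T₁`, so `Y = T₁`, `T₂ = T₁`.  So `S₁ ≠ U`; if `w' ∈ S₁` then
`S₂ ⊆ S₁` and `S₁ = U`.  So `w' ∉ S₁`, `ctr w w' T₁ = sw w w' T₁` is indecomposable and equals `T₂`,
`U = S₁ + w'`, `nu Y ≤ nu T₁ + 1`, `Y + T₁ ≠ 0` (it has the vertex `w'`), so `nu (Y + T₁) = 1`,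
`Y + T₁ = K {w', α, β}`; in the same way `Y + T₂` is a triangle containing `w`.  So `w'` has degree 2
in `Y`, and then degree 2 in `T₂` (`w` is not a vertex of `T₂`: if `w'` is in the second
triangle `{w, w', β'}` then `w ∈ {α, β}`), so `T₂` has a collinear triple (`S_small`), is
a triangle (`S_tri`), contradicting `|S₂| = nu T₂ + 3`. -/
def S_uqB2 : Prop := ∀ (V : Type) [Fintype V] [DecidableEq V] (Y T₁ T₂ P : Gr V) (w w' : V),
  SDn V (supp Y).card → IsEv Y → Indec T₁ → Indec T₂ → Tight T₁ Y → Tight T₂ Y → T₁ ≠ T₂ →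
  supp Y = supp T₁ ∪ supp T₂ → 3 ≤ rk Y (supp Y) → w ∈ supp T₁ → w ∉ supp T₂ → good Y w w' →
  Indec P → Tight P (ctr w w' T₁) → P ≠ T₂

/-- U9. Uniqueness when `supp Y = S₁ ∪ S₂ = U`; `r = rk Y U ≥ 3`.  `S₁ = S₂` is impossible (two
cliques would be equal; if `|S_i| = nu T_i + 3` and `S_i = U` then `Y = T_i` as in U8).
Choose (up to exchanging the roles) `w ∈ S₁ - S₂` and `J ∋ w` so that the rank condition
of U7 holds (`P ≠ T₂` is U8):
(3a) `rk Y S₂ ≥ 3`, `S₁ ⊄ S₂`: `w ∈ S₁ - S₂`, `J ∋ w` with `|S₂ - J| ≥ 3`; then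
`rk (ctr) S₂ ≥ 3` (`S_rkm`).  (3a') the same with roles exchanged.
(3b) `rk Y S₁ = rk Y S₂ = 2`: any `w ∈ S₁ - S₂` (exists, else `rk Y U = 2`), any `J ∋ w`.
`S₁/ww' := (S₁ - w) (+ w' if w' ∉ S₁)` has rank `≤ 2` in `ctr` (`S_ctrnu`; if `w' ∉ S₁` use that
`ctr w w' Y` and `ctr w' w Y` differ by `sw w w'`), `supp P` is contained in it and has at least 2
points, so spans it; `(S₁/ww') ∪ S₂ ⊇ U - w` has rank `r ≥ 3` in `ctr`; so
`rk (supp P ∪ S₂) ≥ 3`.
(3c) otherwise (up to symmetry) `rk Y S₂ ≤ 2`, `S₂ ⊆ S₁ = U`, so `T₁ = K U`, `|U| = 2k+1`; put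
`Y₁ = Y + K U`.  If there is `w ∈ supp Y₁ - S₂`: take it, any `J ∋ w`; `P = K (U-w-w')`.  If
`w' ∈ S₂` or `r ≥ 4` fine.  If `r = 3`, `w' ∉ S₂` and `rk (ctr) (U-w-w') ≤ 2` then `w'` is isolated
in `ctr`, so `w, w'` are nonadjacent twins in `Y₁` with neighbours, `S_twin` gives
`nu Y - 1 = nu (ctr Y) ≤ nu (ctr (K U)) + nu (ctr Y₁) ≤ (k-1) + nu Y₁ - 2`, contradiction.
If `supp Y₁ ⊆ S₂`: `Y₁ = 0` gives `T₂` tight in the indecomposable `K U`, contradiction.
Otherwise `2 = rk Y S₂ = |S₂| - nu Y + nuC Y (U - S₂)`, `nuC Y (U - S₂) = nuC (K U) (U - S₂)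
= min |U - S₂| k`; `|U - S₂| ≤ k` would give `rk Y U = 2`; so `|S₂| - 2 = nu Y - k = nu Y₁`.
Hence `range L_Y ∩ F^{S₂}` (dimension `|S₂| - rk Y S₂`) equals `range L_{Y₁}` and contains
`range L_{T₂}`; if `L_Y g = L_{T₂} h = L_{Y₁} h'` then `L_{Y₁} g = L_{Y₁} h' = L_Y g`, so
`L_{K U} g = 0`: orthogonal (`S_oiff`). -/
def S_uqB : Prop := ∀ (V : Type) [Fintype V] [DecidableEq V] (n : ℕ) (Y T₁ T₂ : Gr V),
  SDn V (n + 1) → UQn V n → IsEv Y → (supp Y).card ≤ n + 1 → Indec T₁ → Indec T₂ → Tight T₁ Y →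
  Tight T₂ Y → T₁ ≠ T₂ → 3 ≤ rk Y (supp T₁ ∪ supp T₂) → supp Y = supp T₁ ∪ supp T₂ → Orth T₁ T₂ Y

/-- U10. Assembly. -/
def S_uq : Prop := ∀ (V : Type) [Fintype V] [DecidableEq V] (n : ℕ), SDn V n → UQn V n

/-! ## L. First order lemma (edge `b b'`, `Y = ctr b b' H`, `z = b'`) -/

/-- the functional `δ` -/
noncomputable def del {V : Type} [Fintype V] [DecidableEq V] (H : Gr V) (b b' : V) (c : V → F V) :
    F V := ∑ v ∈ (nbr H b).erase b', (c v + c b') * (xF v + xF b')⁻¹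

/-- L1. `J ∌ b, b'`.  `P_J = (t_b + t_{b'}) Q₀`, `s Q₀ = q^2 PJ Y J` (`s = sg b b'`, `S_ctr_out`).
If `PJ Y J ≠ 0` both sides hold.  Otherwise `Q₀ = (t_b + t_{b'}) Q₁` and the cube divides `P_J` iff
`s Q₁ = 0`; `s Q₁ = s (d_b Q₀)`, and with `R₀ = prod of the other edges`,
`d_b R₀ = sum_{v ∈ B} R₀/(t_v + t_b)`, `B = nbr b - b'`, so
`s Q₁ = q^2 sum_{v ∈ B} d_J ((t_v + t_{b'}) PP Y)/(x_v + x_{b'}) = q^2 sum_{v ∈ B ∩ J} PJ Y (J-v)/(x_v + x_{b'})`.
If all `PJ Y (J-v) = 0` then `s Q₁ = 0` and the kernel vectors of `Lap Y` supported on `J` have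
dimension at least 2, so one of them has `δ = 0`.  Otherwise they are the multiples of
`c* = (PJ Y (J-v))_v` (`S_ker`) and `δ(c*) = s Q₁ / q^2`. -/
def S_FLchar : Prop := ∀ (V : Type) [Fintype V] [DecidableEq V] (H : Gr V) (b b' : V)
  (J : Finset V), IsEv H → H b b' ≠ 0 → b ∉ J → b' ∉ J →
  ((¬ ((X b + X b' : R V) ^ 3 ∣ PJ H J)) ↔ ∀ c : V → F V, (∀ v, v ∉ J → c v = 0) →
    (Lap (ctr b b' H)).mulVec c = 0 → del H b b' c = 0 → c = 0)

/-- L2. Induction on `|C|`.  (i) No `w ∈ C` in `supp H`: `J = ∅`, `PP H` is squarefree in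
`t_b + t_{b'}`.  (ii) Some `w ∈ C ∩ supp Y` (`Y = ctr b b' H`): choose `J₁ ∋ w`, `J₁ ⊆ C`,
`|J₁| = nuC H C`, `PJ H J₁ ≠ 0`, and `J_e ∋ w` with `|J_e| = nu Y`, `PJ Y J_e ≠ 0`.  Count zeros
(`S_cnt`): in `nbr H w` at most `a = (deg_H w - 2)/2` zeros of `PJ H J₁`, in `nbr Y w` at most
`(deg_Y w - 2)/2` zeros of `PJ Y J_e`; `nbr Y w` corresponds to `nbr H w` (with `b'` standing for
the neighbour of `w` among `b, b'`) if `w` is not adjacent to both `b, b'`, and is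
`nbr H w - b - b'` otherwise; in both cases some `w' ∈ nbr Y w` is no zero of either:
let `w^` be the corresponding neighbour in `H` (`w^ = b` or `b'` if `w' = b'`, else `w^ = w'`),
`H' = ctr w w^ H`.  `H' b b' ≠ 0`, `ctr b b' H' = ctr w w' Y`, so `b b'` is good in `H'` and
`nuC H' (C - w) = nuC H C - 1`.  Induction gives `J'`; take `J = J' + w`: if the cube divided
`P_J` then it would divide `sg w w^ P_J = q^2 PJ H' J'`, and `q` is prime to `t_b + t_{b'}` (a common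
neighbour `u` with `{u, w^} = {b, b'}` is impossible).  (iii) Otherwise every `w ∈ C ∩ supp H` has
`nbr H w = {b, b'}`.  Two such `w₁, w₂`: `P_{w₁ w₂} = (x_b + x_{b'}) PP (H - w₁ - w₂)`, the edge
`b b'` is in `H - w₁ - w₂ =: H''`, `ctr b b' H'' = Y`, so `nu Y ≤ nu H'' - 1 ≤ nu H - 3`,
contradiction.  One such `w`: `J = {w}`, `P_J = (t_b + t_{b'})^2 R''`. -/
def S_FLP : Prop := ∀ (V : Type) [Fintype V] [DecidableEq V] (H : Gr V) (b b' : V)
  (C : Finset V), IsEv H → good H b b' → b ∉ C → b' ∉ C →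
  ∃ J ⊆ C, J.card = nuC H C ∧ ¬ ((X b + X b' : R V) ^ 3 ∣ PJ H J)

/-- L3. With `C` the complement of `A + b + b'`: by `S_rk`, `rk H (A+b+b') - rk Y (A+b') =
nuC H C - nuC Y C`.  Take `J` from L2; by L1 `δ` is injective on the kernel vectors of `Lap Y`
supported on `J`, so `nuC Y C ≥ |J| - 1`; if `nuC H C = nuC Y C + 1` there is such a nonzero
vector `f`, `δ f ≠ 0`.  Conversely if `f ∈ ker Lap Y` is supported on `C` (change `f` at `b`),
`δ f ≠ 0`, then `[Lap Y; δ]` restricted to the columns `C` has rank `nuC Y C + 1`; take `J ⊆ C`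
independent columns of it, L1: `P_J ≠ 0`, so `nuC H C ≥ nuC Y C + 1`. -/
def S_FL2 : Prop := ∀ (V : Type) [Fintype V] [DecidableEq V] (H : Gr V) (b b' : V)
  (A : Finset V), IsEv H → good H b b' → b ∉ A → b' ∉ A →
  rk H (insert b (insert b' A)) ≤ rk (ctr b b' H) (insert b' A) + 1 ∧
  (rk H (insert b (insert b' A)) = rk (ctr b b' H) (insert b' A) + 1 ↔
    ∃ f : V → F V, (Lap (ctr b b' H)).mulVec f = 0 ∧ (∀ v ∈ insert b' A, f v = 0) ∧
      del H b b' f ≠ 0)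

/-- L4. Star polynomials: `J ∌ b, b'`, `|J| = nu H`.  `P_J` is a constant divisible by
`t_b + t_{b'}` (`S_ctr_out`), so `P_J = (x_b + x_{b'}) Q`, `Q` a constant.  If `sg b b' Q ≠ 0` then
`b b'` is good (formula for `s Q₁` in L1: some `PJ Y (J-v) ≠ 0`; `PJ Y J = 0` as
`nu Y < nu H = |J|`). -/
def S_star : Prop := ∀ (V : Type) [Fintype V] [DecidableEq V] (H : Gr V) (b b' : V)
  (J : Finset V), IsEv H → H b b' ≠ 0 → b ∉ J → b' ∉ J → J.card = nu H →
  ∃ Q : R V, PJ H J = (xx b + xx b') * Q ∧ (∀ v, pderiv v Q = 0) ∧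
    ((¬ ((X b + X b' : R V) ^ 3 ∣ PJ H J)) ↔ sg b b' Q ≠ 0) ∧
    (sg b b' Q ≠ 0 → good H b b') ∧
    (∀ w, w ≠ b → w ≠ b' → degreeOf w (sg b b' Q) ≤ degreeOf w (PJ H J))

/-! ## Z. The zero bound -/

/-- Z1. If at `w` the number of common zeros of all `P_J`, `J ∋ w`, `|J| = nu`, is the maximal
possible, then `w` and its neighbours are collinear.  Fix such a `J₀` with `P_{J₀} ≠ 0`.  All
`P_J = c_J prod_{w' ∈ Z} (x_w + x_{w'})`, `c_J` free of `t_w`.  The kernel is spanned by the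
`κ_v = e_v + sum_{u ∈ J₀} (P_{J₀-u+v}/P_{J₀}) e_u`, `v ∉ J₀`; for `u ≠ w` the entries are free
of `x_w`.  For `f = κ_v` the equation at a neighbour `p` of `w` shows that
`h_p = (f_w + f_p)/(x_w + x_p)` is free of `x_w`, so `f_w = f_p + h_p (x_w + x_p)` is affine in `x_w`;
comparing for all `p`: `h_p = h`, `f_p = g + h x_p`, `f_w = g + h x_w` with `g, h` free of `x_w`. -/
def S_lin : Prop := ∀ (V : Type) [Fintype V] [DecidableEq V] (A : Gr V) (w : V) (Z : Finset V),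
  IsEv A → w ∈ supp A → Z ⊆ nbr A w → 2 * Z.card + 2 = (nbr A w).card →
  (∀ J : Finset V, w ∈ J → J.card = nu A → ∀ w' ∈ Z, sg w w' (PJ A J) = 0) →
  rk A (insert w (nbr A w)) ≤ 2

/-- Z2. Double zeros.  `P = (t_w + t_{w'}) R₀`, `ε = t_w + t_{w'}`.  In the variables `ε, t_{w'}` write
`R₀ = sum_k ε^k R_k` (`R_k` free of `ε`); `R₀|_{ε=0} = q^2 PP (ctr)` and `R₂ = R₀|_{ε=0} *
(sum over pairs u<v in nbr w - w' of 1/((t_{w'}+t_u)(t_{w'}+t_v)))`.  With `J' = J - w ∌ w'`: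
`P_J = d_{J'} d_ε (sum_k ε^{k+1} R_k) = sum_{k even} ε^k d_{J'} R_k`, and
`d_{J'} R₀|_{ε=0} = 0`, `d_{J'} R₂ = sum c_{uv} d_{J'} ((t_{w'}+t_u)(t_{w'}+t_v) q^2 PP (ctr)) = 0` because
it involves only derivatives of `PP (ctr)` of order at least `nu A - 3 > nu (ctr)`.  So
`ε^4 ∣ P_J`.  If `w' ∈ J`: the same with `d_{w'} + d_ε` in place of `d_{w'}`. -/
def S_mult : Prop := ∀ (V : Type) [Fintype V] [DecidableEq V] (A : Gr V) (J : Finset V)
  (w w' : V), IsEv A → w ∈ J → J.card = nu A → A w w' ≠ 0 → nu (ctr w w' A) + 4 ≤ nu A →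
  (xx w + xx w') ^ 2 ∣ PJ A J

/-- Z3. `Γ = G + T`, `nu Γ + nu T ≤ nu G + 2`.  The map `ker L_G → range L_Γ ∩ range L_T`,
`f ↦ L_Γ f = L_T f` has kernel `ker L_Γ ∩ ker L_T`; let `e` be the dimension of its image,
`d ≥ e` that of `range L_Γ ∩ range L_T`; `nu G = nu Γ + nu T - d - e`, so `e ≤ 1`.
Restrict to `B`. -/
def S_rkplus : Prop := ∀ (V : Type) [Fintype V] [DecidableEq V] (G T : Gr V) (B : Finset V),
  IsEv G → IsEv T → nu (G + T) + nu T ≤ nu G + 2 → rk G B ≤ rk (G + T) B + 1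

/-- Z4. Zero bound.  `Γ = G + T` has the same neighbours at `w`; parity: `nu Γ + nu T = nu G + 2ρ`,
`ρ ≥ 1`.  For `w' ∈ Z`: `nu (ctr w w' Γ) = nu G - 1 - nu T = nu Γ - 1 - 2ρ`.  So for every
`J ∋ w`, `|J| = nu Γ`: `sg w w' (PJ Γ J) = 0` (`S_ctrnu`), and `(x_w+x_{w'})^2 ∣ PJ Γ J` if `ρ ≥ 2`.
If `ρ ≥ 2`: `S_interp2` gives `2 |Z| ≤ a = (deg w - 2)/2`, enough as `deg w ≥ 6`.
If `ρ = 1`: `|Z| ≤ a`, and `|Z| = a` gives `rk Γ (N[w]) ≤ 2` (`S_lin`), so `rk G (N[w]) ≤ 3`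
(`S_rkplus`), a contradiction. -/
def S_zeros : Prop := ∀ (V : Type) [Fintype V] [DecidableEq V] (G T : Gr V) (w : V)
  (Z : Finset V), IsEv G → IsEv T → w ∈ supp G → w ∉ supp T → 6 ≤ (nbr G w).card →
  4 ≤ rk G (insert w (nbr G w)) → ¬ Tight T G → Z ⊆ nbr G w →
  (∀ w' ∈ Z, good G w w' ∧ Tight T (ctr w w' G)) → 2 * Z.card + 4 ≤ (nbr G w).card

end Pool.Agent.W390.SD
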