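import Pool.Agent.W390.SD.Stm2

/-!
# Project SD, part 3: the main part (statements)

`G` indecomposable, `N = |supp G| = nu G + r`, `r ≥ 4`; `b b'` a good edge, `Y = ctr b b' G`
(so `b` is isolated in `Y`), `T` an indecomposable tight part of `Y`.  Strong duality and
uniqueness are known for graphs with at most `n = N - 1` non-isolated vertices.
-/

namespace Pool.Agent.W390.SD

open MvPolynomial Finset

/-- The companion of `T` (tight part of `Y = ctr b b' G`): the other even graph whose contraction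
can be `T`. -/
def tw {V : Type} [Fintype V] [DecidableEq V] (b b' : V) (T : Gr V) : Gr V :=
  if b' ∈ supp T then sw b b' T else K (insert b (insert b' (supp T)))

/-- The neighbour of `w` in `G` corresponding to the neighbour `u` of `w` in `ctr b b' G`. -/
def hat {V : Type} [DecidableEq V] (G : Gr V) (b b' w u : V) : V :=
  if u = b' ∧ G w b' = 0 then b else u

/-- `c` is the star polynomial of `(H, b, b', J)`. -/
def SP {V : Type} [Fintype V] [DecidableEq V] (H : Gr V) (b b' : V) (J : Finset V) (c : R V) :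
    Prop :=
  H b b' ≠ 0 ∧ b ∉ J ∧ b' ∉ J ∧ J.card = nu H ∧
    ∃ Q : R V, PJ H J = (xx b + xx b') * Q ∧ (∀ v, pderiv v Q = 0) ∧ c = sg b b' Q

/-! ## M. Preparations -/

/-- M1. Second commutation rule (shared vertex). Pointwise case distinction: in both graphs
`w` and `b` are isolated and `b'` has adjacency `A b' + A b + A w`. -/
def S_ctr2 : Prop := ∀ (V : Type) [Fintype V] [DecidableEq V] (A : Gr V) (w b b' : V),
  IsEv A → w ≠ b → w ≠ b' → b ≠ b' →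
  ctr b b' (ctr w b A) = ctr w b' (ctr b b' A)

/-- M2. Lifting of contractions, `Y = ctr b b' G`, `v = hat G b b' w u`.  `Y w x = G w x` for
`x ≠ b, b'`, `Y w b = 0`, `Y w b' = G w b' + G w b`.  Contraction identity: `S_ctrcomm` if `v = u`
(also when `u = b'`), `S_ctr2` if `v = b`.  Goodness: `ctr b b' (ctr w v G) = ctr w u Y` has
`nu = nu G - 2`, and contracting an edge lowers `nu` by at least 1 (`S_ctrnu`), twice. -/
def S_lift : Prop := ∀ (V : Type) [Fintype V] [DecidableEq V] (G : Gr V) (b b' w u : V),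
  IsEv G → G b b' ≠ 0 → w ≠ b → w ≠ b' → ctr b b' G w u ≠ 0 →
  u ≠ b ∧ u ≠ w ∧ hat G b b' w u ≠ w ∧ (hat G b b' w u = u ∨ hat G b b' w u = b ∧ u = b') ∧
  G w (hat G b b' w u) ≠ 0 ∧ ctr w (hat G b b' w u) G b b' ≠ 0 ∧
  ctr b b' (ctr w (hat G b b' w u) G) = ctr w u (ctr b b' G) ∧
  (good G b b' → good (ctr b b' G) w u →
    good G w (hat G b b' w u) ∧ good (ctr w (hat G b b' w u) G) b b') ∧
  (good G b b' → good G w (hat G b b' w u) → good (ctr w (hat G b b' w u) G) b b' →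
    good (ctr b b' G) w u) ∧
  (∀ u', ctr b b' G w u' ≠ 0 → hat G b b' w u = hat G b b' w u' → u = u')

/-- M3. Neighbourhoods of `w` in `G` and `Y = ctr b b' G` (see M2). -/
def S_nbr : Prop := ∀ (V : Type) [Fintype V] [DecidableEq V] (G : Gr V) (b b' w : V),
  IsEv G → b ≠ b' → w ≠ b → w ≠ b' →
  (G w b ≠ 0 ∧ G w b' ≠ 0 → b' ∉ nbr (ctr b b' G) w ∧
    (nbr (ctr b b' G) w).card + 2 = (nbr G w).card) ∧
  (¬ (G w b ≠ 0 ∧ G w b' ≠ 0) → (nbr (ctr b b' G) w).card = (nbr G w).card) ∧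
  (∀ x, x ≠ b → x ≠ b' → (x ∈ nbr (ctr b b' G) w ↔ x ∈ nbr G w)) ∧ b ∉ nbr (ctr b b' G) w

/-- M4. The companion.  If `T = K (supp T)` then `|supp T|` is odd and at least 3.
Use `S_sw`, `S_clind`, `S_ctrK`, `S_ctr` (for `b' ∈ supp T`: `ctr b b' (sw b b' T)
= sw b b' (sw b b' T)` because `b' ∉ supp (sw b b' T)`). -/
def S_tw : Prop := ∀ (V : Type) [Fintype V] [DecidableEq V] (b b' : V) (T : Gr V), b ≠ b' →
  Indec T → b ∉ supp T → (b' ∈ supp T ∨ T = K (supp T)) →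
  Indec (tw b b' T) ∧ supp (tw b b' T) ⊆ insert b (insert b' (supp T)) ∧
  b ∈ supp (tw b b' T) ∧ tw b b' T ≠ T ∧ ctr b b' (tw b b' T) = T ∧
  (b' ∈ supp T → supp (tw b b' T) = insert b ((supp T).erase b'))

/-- M5. Block decomposition.  `L` from `S_decomp` for `H`.  For `Q ∈ L`: `S_ctrt` gives tightness of
`ctr b b' Q` in `Y`, and `nu Y = nu H - 1`; sum of the `nu (ctr b b' Q)` is at least `nu Y`; it is
at most `nu H - 1` because the edge `b b'` lies in an odd number of members of `L`.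
Last clause: decompose `ctr b b' Q` (`S_decomp`); if `T` were orthogonal to all parts then to
their sum (`S_ocons`, induction on the list: parts of a tight decomposition are pairwise
orthogonal and partial sums are tight; orthogonality is symmetric). -/
def S_blocks : Prop := ∀ (V : Type) [Fintype V] [DecidableEq V] (H : Gr V) (b b' : V),
  IsEv H → good H b b' → ∃ L : List (Gr V), (∀ Q ∈ L, Indec Q ∧ Tight Q H) ∧ L.sum = H ∧
    (L.map nu).sum = nu H ∧ (∀ Q ∈ L, Tight (ctr b b' Q) (ctr b b' H)) ∧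
    (L.map (ctr b b')).sum = ctr b b' H ∧
    ((L.map (ctr b b')).map nu).sum = nu (ctr b b' H) ∧
    (∀ T, Tight T (ctr b b' H) → ∀ Q ∈ L, ¬ Orth T (ctr b b' Q) (ctr b b' H) →
      ∃ P, Indec P ∧ Tight P (ctr b b' Q) ∧ Tight P (ctr b b' H) ∧ ¬ Orth T P (ctr b b' H))

/-- M6. Typed lemma.  Take `L` from `S_blocks`.  If `T` were orthogonal to all `ctr b b' Q` then
`T = 0` (`S_dorth` with `p = false`).  So some `P` indecomposable tight in `ctr b b' Q`, `Q ∈ L`, is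
not orthogonal to `T` in `Y`; as `rk Y (supp T) ≥ 3`, `UQn` (for `Y`) gives `P = T`.
So `T` is tight in `ctr b b' Q`.  Cases: `b ∉ supp Q`: `ctr b b' Q = Q` (`S_ctr`) is indecomposable,
`T = Q`.  `b ∈ supp Q`, `b' ∉ supp Q`: `ctr b b' Q = sw b b' Q` indecomposable, `T = sw b b' Q`,
`b' ∈ supp T`, `tw b b' T = sw b b' T = Q`.  `b, b' ∈ supp Q`: `Q` is `Basic` (`SDn`).  If `Q = K S`:
`ctr b b' Q = K (S - b - b')`, indecomposable or 0 (`S_clind`), so `T = K (S - b - b')`,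
`supp T = S - b - b'`, `tw b b' T = K S = Q`.  Otherwise `|supp Q| = nu Q + 3` (`S_small`: at most
`nu + 2` means triangle, a clique), `supp T ⊆ supp (ctr b b' Q) ⊆ supp Q - b`,
`rk H (supp Q) ≤ rk Q (supp Q) = 3`, and `rk Y (insert b' (supp T)) ≤ rk Y (supp Q - b)
≤ rk H (supp Q - b) ≤ 3` (`S_ctrnu`): last alternative. -/
def S_TL : Prop := ∀ (V : Type) [Fintype V] [DecidableEq V] (H T : Gr V) (b b' : V), IsEv H →
  good H b b' → SDn V (supp H).card → UQn V (supp H).card → Indec T → Tight T (ctr b b' H) →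
  3 ≤ rk (ctr b b' H) (supp T) →
  Tight T H ∨ ((b' ∈ supp T ∨ T = K (supp T)) ∧ Tight (tw b b' T) H) ∨
  (rk H (insert b (insert b' (supp T))) ≤ 3 ∧ rk (ctr b b' H) (insert b' (supp T)) ≤ 3)

/-- M7. Exclusivity.  `T₀ = T`, `T₁ = tw b b' T` are different, indecomposable, and
`rk H (supp T) ≥ rk Y (supp T) ≥ 3` (`S_ctrnu`, `b ∉ supp T`), so if both are tight in `H` they are
orthogonal (`UQn`), `T₀ + T₁` is tight in `H` with `nu (T₀ + T₁) = nu T₀ + nu T₁ ≥ 2` (`S_ocons`), and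
by `S_ctrt` `nu (ctr b b' (T₀ + T₁)) ≥ nu (T₀ + T₁) - 1 ≥ 1`, but `ctr b b' (T₀ + T₁) = T + T = 0`. -/
def S_EX : Prop := ∀ (V : Type) [Fintype V] [DecidableEq V] (H T : Gr V) (b b' : V), IsEv H →
  good H b b' → UQn V (supp H).card → Indec T → Tight T (ctr b b' H) →
  3 ≤ rk (ctr b b' H) (supp T) → Tight T H → (b' ∈ supp T ∨ T = K (supp T)) →
  ¬ Tight (tw b b' T) H

/-- M8. Good non-edges.  Let `P' = ctr b b' Γ`, `f ∈ ker Lap P'`, `s = sg b b'`.  The kernel of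
`Lap P'` is spanned by `e_b` (`b` isolated: functional 0, as `b ∉ nbr Γ b`, `f b' = 0`) and the
vectors `c_v = PJ P' (M - v)` (`v ∈ M`, 0 elsewhere; `S_ker`), where `M = J + v₀`, `J` a basis of `P'`
(`|J| = nu P'`, `PJ P' J ≠ 0`), `v₀ ∉ J`, `v₀ ≠ b`.  For such an `M` (`b ∉ M`, `|M| = nu Γ + 1`):
`0 = s (PJ Γ (M + b))` (because `|M + b| > nu Γ`), and, by the chain rule
`s ((pderiv b + pderiv b') p) = pderiv b' (s p)` (used when `b' ∈ M`, with `pderiv b (pderiv b p) = 0`),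
this equals `dd M (s (pderiv b (PP Γ)))`, where
`s (pderiv b (PP Γ)) = q^2 sum_{v ∈ nbr Γ b} (t_v + t_{b'}) PP P' / (x_v + x_{b'})`, and
`dd M ((t_v + t_{b'}) PP P') = [v ∈ M] PJ P' (M-v) + [b' ∈ M] PJ P' (M-b')` (as `PJ P' M = 0`).
So the functional vanishes at `c`. -/
def S_fold : Prop := ∀ (V : Type) [Fintype V] [DecidableEq V] (Γ : Gr V) (b b' : V) (f : V → F V),
  IsEv Γ → b ≠ b' → Γ b b' = 0 → nu (ctr b b' Γ) = nu Γ → (Lap (ctr b b' Γ)).mulVec f = 0 →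
  ∑ v ∈ nbr Γ b, (f v + f b') * (xF v + xF b')⁻¹ = 0

/-- M9. Take `L` from `S_blocks`, `Y = ctr b b' H`, `S_T = supp T`.  Let `Q ∈ L`, `P` indecomposable tight
in `ctr b b' Q` and in `Y`, not orthogonal to `T` in `Y`.  By `UQn`: `P = T` or
`rk Y (supp P ∪ S_T) ≤ 2`.  In both cases, with `z = b'`: `z ∉ supp P` (else `rk Y (S_T + z) ≤ 2`), and by
`S_FL2` (rank of `S_T + b + b'` in `H` is 4, of `S_T + b'` in `Y` is 3) there is `f ∈ ker Lap Y`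
vanishing on `S_T + b'` with `del H b b' f ≠ 0`; `f` vanishes on `supp P` (two points of `S_T` span
the closure of `S_T`: `rk Y (S_T) = rk Y (supp P ∪ S_T)`), `rk Y (supp P + b') = 3`, so by
`S_FL2` `rk H (supp P + b + b') = 4`.
Claim `b ∉ supp Q`.  Otherwise (1) `b' ∉ supp Q`: `P = ctr b b' Q = sw b b' Q` has `b' ∈ supp P`.
(2) `b, b' ∈ supp Q`, `|supp Q| ≤ nu Q + 3`: `rk H (supp Q) ≤ 3` but contains `supp P + b + b'`.
(3) `Q = K S₀ ∋ b, b'`: then `P = K (S₀ - b - b')`, `f = 0` on `S₀ - b`.  Put `Γ = H + Q`, tight in `H`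
(`S_tcons`), `Γ b b' = 0`, `nu (ctr b b' Γ) = nu Γ`, `f ∈ ker Lap (ctr b b' Γ)` (`S_ctrt`, `S_tcons`), so
`S_fold` gives `sum_{v ∈ nbr Γ b} (f_v + f_z)/(x_v + x_z) = 0`; `nbr H b` is the symmetric difference of
`nbr Γ b` and `S₀ - b`, and `f = 0` on `S₀ - b`, so `del H b b' f = 0`: contradiction.
Hence for every `Q ∈ L` with `¬ Orth T (ctr b b' Q) Y`: `b ∉ supp Q`, `ctr b b' Q = Q`.  Let `L'` be the
list of these `Q`.  `S_dorth` (for `Y`, list `L.map (ctr b b')`): `T` is tight in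
`(L'.map (ctr b b')).sum = L'.sum`, and `L'.sum` is tight in `H` (`S_dorth` for `H`, `T = 0`). -/
def S_TLline : Prop := ∀ (V : Type) [Fintype V] [DecidableEq V] (H T : Gr V) (b b' : V), IsEv H →
  good H b b' → SDn V (supp H).card → UQn V (supp H).card → Indec T → Tight T (ctr b b' H) →
  b' ∉ supp T → rk (ctr b b' H) (insert b' (supp T)) = 3 →
  rk H (insert b (insert b' (supp T))) = 4 → Tight T H

/-- M10. Rank bound after a good contraction of a uniform graph: `S_FL2` and `S_unifrk`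
(`rk G (A + b + b') = min (|A| + 2) r`). -/
def S_zcap : Prop := ∀ (V : Type) [Fintype V] [DecidableEq V] (G : Gr V) (b b' : V) (A : Finset V)
  (r : ℕ), Unif G → good G b b' → nu G + r = (supp G).card → A ⊆ supp G → b ∉ A → b' ∉ A →
  min (r - 1) (A.card + 1) ≤ rk (ctr b b' G) (insert b' A)

/-- M11. Non-twin good edges.  For `w ∈ supp G` choose `J ∋ w`, `|J| = nu G`, `PJ G J ≠ 0`; by `S_cnt`,
`S_ctrnu` at least `deg w / 2 + 1` neighbours `w'` of `w` are good.  If `b' ∉ supp (ctr b b' G)` for all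
good edges, then all good edges `w w'` join adjacent twins (`G w v = G w' v` for `v ≠ w, w'`).
Let `C_w` be the class of `w` (`w` and its adjacent twins; a clique, all its vertices have the same
closed neighbourhood), `c_w = |C_w| ≥ deg w / 2 + 2`.  If `w` has a neighbour `v ∉ C_w` then
`C_v`, `C_w` are disjoint and completely joined: `deg w ≥ c_w - 1 + c_v`, so
`2 c_w ≥ deg w + 4 ≥ c_w + c_v + 3`, `c_w ≥ c_v + 3`, and symmetrically `c_v ≥ c_w + 3`: contradiction.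
So all neighbours of `w` are in `C_w`: `C_w` is a connected component and `G = K C_w + rest` with
disjoint supports, `K C_w` is tight (`S_rkm`), so `G = K C_w`. -/
def S_nontwin : Prop := ∀ (V : Type) [Fintype V] [DecidableEq V] (G : Gr V), Indec G →
  (∃ b b', good G b b' ∧ b' ∈ supp (ctr b b' G)) ∨ ∃ S : Finset V, Odd S.card ∧ 3 ≤ S.card ∧ G = K S

/-- M12. `Y = K (supp G - b)` is impossible.  `|supp G| = N`, `nu Y = (N-2)/2 = nu G - 1`, so `nu G = N/2`,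
`r = N/2`.  Every `v ∈ supp G - b - b'` is adjacent in `G` to exactly one of `b, b'`:
`deg b + deg b' = N`; but both degrees are at least `2 (r-1) = N - 2` (`S_degbd`): `N ≤ 4`. -/
def S_m1 : Prop := ∀ (V : Type) [Fintype V] [DecidableEq V] (G : Gr V) (b b' : V), Unif G →
  nu G + 4 ≤ (supp G).card → good G b b' → ctr b b' G = K ((supp G).erase b) → False

/-! ## N. Large rank: double contraction -/

/-- N1. Double contraction, `Y = ctr b b' G`, `v_i = hat G b b' w_i u_i`, `H_i = ctr w_i v_i G`.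
By `S_ctrnu`: `good Y w₁ u₁`, and with `Y₁ = ctr w₁ u₁ Y`, `J₁ = J - w₁` (`PJ Y₁ J₁ ≠ 0`, `|J₁| = nu Y₁`)
`good Y₁ w₂ u₂`, `PJ (ctr w₂ u₂ Y₁) (J₁ - w₂) ≠ 0`.  `ctr w₂ u₂ Y₁ = ctr w₁ u₁ (ctr w₂ u₂ Y)`
(`S_ctrcomm`; `u₂ ≠ w₁, u₁`, `u₁ ≠ w₂`), two edge contractions, so `good Y w₂ u₂`,
`good (ctr w₂ u₂ Y) w₁ u₁`.  `S_lift` gives `good G w_i v_i`, `good H_i b b'`.  Adjacencies of
`w₂` to `b, b', v₂` are the same in `G` and in `H₁` if `v₁ ∉ {b, b'}`; if `v₁ ∈ {b, b'}` then `u₁ = b'`, so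
`u₂ ≠ b'`, `v₂ = u₂` and the adjacency of `w₂` and `u₂` is the same.  So `H₁ w₂ v₂ ≠ 0`,
`hat H₁ b b' w₂ u₂ = v₂` (if `u₂ = b'` then `v₁ = u₁ ∉ {b, b'}`), hence `ctr b b' (ctr w₂ v₂ H₁) =
ctr w₂ u₂ Y₁` (`S_lift` for `H₁`), and `ctr w₂ v₂ H₁ = ctr w₁ v₁ H₂` (`S_ctrcomm`). -/
def S_dbl : Prop := ∀ (V : Type) [Fintype V] [DecidableEq V] (G : Gr V) (b b' w₁ w₂ u₁ u₂ : V)
  (J : Finset V), IsEv G → good G b b' → w₁ ≠ w₂ → w₁ ≠ b → w₁ ≠ b' → w₂ ≠ b → w₂ ≠ b' →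
  w₁ ∈ J → w₂ ∈ J → PJ (ctr b b' G) J ≠ 0 → J.card = nu (ctr b b' G) →
  ctr b b' G w₁ u₁ ≠ 0 → sg w₁ u₁ (PJ (ctr b b' G) J) ≠ 0 → u₁ ≠ w₂ →
  ctr b b' G w₂ u₂ ≠ 0 → u₂ ≠ w₁ → u₂ ≠ u₁ →
  sg w₂ u₂ (PJ (ctr w₁ u₁ (ctr b b' G)) (J.erase w₁)) ≠ 0 →
  (good (ctr b b' G) w₁ u₁ ∧ good G w₁ (hat G b b' w₁ u₁) ∧
    good (ctr w₁ (hat G b b' w₁ u₁) G) b b') ∧
  (good (ctr b b' G) w₂ u₂ ∧ good G w₂ (hat G b b' w₂ u₂) ∧
    good (ctr w₂ (hat G b b' w₂ u₂) G) b b') ∧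
  good (ctr w₂ u₂ (ctr b b' G)) w₁ u₁ ∧
  ctr w₁ u₁ (ctr w₂ u₂ (ctr b b' G)) = ctr w₂ u₂ (ctr w₁ u₁ (ctr b b' G)) ∧
  PJ (ctr w₂ u₂ (ctr w₁ u₁ (ctr b b' G))) ((J.erase w₁).erase w₂) ≠ 0 ∧
  ((J.erase w₁).erase w₂).card = nu (ctr w₂ u₂ (ctr w₁ u₁ (ctr b b' G))) ∧
  good (ctr w₁ (hat G b b' w₁ u₁) G) w₂ (hat G b b' w₂ u₂) ∧
  good (ctr w₂ (hat G b b' w₂ u₂) G) w₁ (hat G b b' w₁ u₁) ∧
  ctr w₁ (hat G b b' w₁ u₁) (ctr w₂ (hat G b b' w₂ u₂) G) =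
    ctr w₂ (hat G b b' w₂ u₂) (ctr w₁ (hat G b b' w₁ u₁) G) ∧
  good (ctr w₂ (hat G b b' w₂ u₂) (ctr w₁ (hat G b b' w₁ u₁) G)) b b' ∧
  ctr b b' (ctr w₂ (hat G b b' w₂ u₂) (ctr w₁ (hat G b b' w₁ u₁) G)) =
    ctr w₂ u₂ (ctr w₁ u₁ (ctr b b' G))

/-- N2. Main lemma.  `S_T = supp T`, `A = insert b' S_T`.  Choose nested: `J₁ ⊆ Aᶜ` independent in `Y`,
`|J₁| = nuC Y Aᶜ ≥ 2`, extend to `J₂ ⊆ S_Tᶜ` with `|J₂| = nuC Y S_Tᶜ`, extend to `J`, `|J| = nu Y`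
(`S_basis`).  Then `|A - J| = rk Y A ≥ 4`, `|S_T - J| = rk Y S_T ≥ 3` (`S_rk`, maximality).
Let `w₁ ≠ w₂ ∈ J₁`; they are not `b` (isolated), not `b'`, not in `S_T`.  For `w ∈ {w₁, w₂}` and `u` with
`Y w u ≠ 0`, good in `Y`, `v = hat G b b' w u`, `H = ctr w v G`: if the ranks of `S_T`, `A` in
`ctr w u Y = ctr b b' H` are `≥ 3`, `≥ 4` then by `S_TL` (`|supp H| ≤ n`; last alternative excluded) `T`
or `tw b b' T` is tight in `H`, not both (`S_EX`).  Neither is tight in `G` (`G` indecomposable,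
`w` is in `supp G` but not in their supports), so by `S_zeros` (`deg w ≥ 2(r-1) ≥ 6`, `S_unifrk`) each
type occurs for at most `deg_G w / 2 - 2` of the `v`.
Choose `u₁` with `Y w₁ u₁ ≠ 0`, `u₁ ≠ w₂`, `sg w₁ u₁ (PJ Y J) ≠ 0` (`S_cnt`: at least
`deg_Y w₁ / 2 + 1 ≥ 3` choices), `Y₁ = ctr w₁ u₁ Y`, type `τ₁`.  `Z :=` the set of `u₂ ∈ nbr Y w₂ - w₁ - u₁`
with `sg w₂ u₂ (PJ Y₁ (J - w₁)) ≠ 0`.  For `u₂ ∈ Z` use `S_dbl`; ranks in
`Y₁₂ = ctr w₂ u₂ Y₁` of `S_T`, `A` are `≥ 3, 4` (`S_rkm`, `J - w₁ - w₂`), hence also in `Y₁` and `ctr w₂ u₂ Y`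
(`S_ctrnu`).  The types `τ₁` of `u₁` and `τ₂` of `u₂` agree: both `T_{τ_i}` are tight in
`H₁₂ = ctr w₂ v₂ H₁ = ctr w₁ v₁ H₂` (`S_ctrt`, `w_i ∉ supp T_τ`), use `S_EX` for `H₁₂`.
So `|Z| ≤ deg_G w₂ / 2 - 2` (`hat` is injective).  But `|Z| ≥ deg_Y w₂ / 2 ≥ deg_G w₂ / 2 - 1`: by `S_cnt` for
`Y₁`: number of nonzeros in `nbr Y₁ w₂` is at least `deg_{Y₁} w₂ / 2 + 1`; `nbr Y₁ w₂` and `nbr Y w₂` agree off
`{w₁, u₁}`; if both `w₁, u₁ ∈ nbr Y w₂` then `u₁ ∉ nbr Y₁ w₂`, `deg_{Y₁} w₂ = deg_Y w₂ - 2`; otherwise the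
degrees are equal and at most one nonzero is lost.  Contradiction. -/
def S_two : Prop := ∀ (V : Type) [Fintype V] [DecidableEq V] (n : ℕ) (G T : Gr V) (b b' : V),
  SDn V n → UQn V n → Indec G → (supp G).card = n + 1 → nu G + 4 ≤ n + 1 → good G b b' →
  Indec T → Tight T (ctr b b' G) → 3 ≤ rk (ctr b b' G) (supp T) →
  4 ≤ rk (ctr b b' G) (insert b' (supp T)) → 2 ≤ nuC (ctr b b' G) (insert b' (supp T))ᶜ → False

/-! ## O. Rank 4 -/

/-- O1. Star polynomials exist (reformulation of `S_star`). -/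
def S_sp1 : Prop := ∀ (V : Type) [Fintype V] [DecidableEq V] (H : Gr V) (b b' : V)
  (J : Finset V), IsEv H → H b b' ≠ 0 → b ∉ J → b' ∉ J → J.card = nu H →
  ∃ c : R V, SP H b b' J c ∧ (∀ v, pderiv v c = 0) ∧
    (c ≠ 0 → good H b b' ∧ PJ H J ≠ 0) ∧ ((¬ ((X b + X b' : R V) ^ 3 ∣ PJ H J)) → c ≠ 0) ∧
    (∀ w, w ≠ b → w ≠ b' → degreeOf w c ≤ degreeOf w (PJ H J))

/-- O2. Specialisation of star polynomials, `v = hat H b b' w u`, `H' = ctr w v H`.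
`S_ctr_edge`: `sg w v (PJ H J) = q^2 PJ H' (J - w)` and it is `(x_b + x_{b'}) sg w v Q` (`w ≠ b, b'`).
`sg b b' (sg w v Q) = sg w u (sg b b' Q) = sg w u c ≠ 0` (compare on variables; `v = u`, or
`v = b`, `u = b'`).  So `PJ H' (J - w) ≠ 0`, `good H w v` (`S_ctrnu`), `|J - w| = nu H'`, `H' b b' ≠ 0`
(`S_lift`); O1 for `H'`: `PJ H' (J - w) = (x_b + x_{b'}) Q'`, so `sg w v Q = q^2 Q'`; apply `sg b b'`. -/
def S_sp2 : Prop := ∀ (V : Type) [Fintype V] [DecidableEq V] (H : Gr V) (b b' w u : V)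
  (J : Finset V) (c : R V), IsEv H → SP H b b' J c → w ∈ J → ctr b b' H w u ≠ 0 →
  sg w u c ≠ 0 → good H w (hat H b b' w u) ∧ good (ctr w (hat H b b' w u) H) b b' ∧
  ∃ c' q : R V, SP (ctr w (hat H b b' w u) H) b b' (J.erase w) c' ∧ c' ≠ 0 ∧ sg w u c = q * c'

/-- O3. Nonzero star polynomials in uniform graphs of rank 4, `J = supp G - {b, b', p, q}`:
`|J| = nu G`, `PJ G J ≠ 0`, `nuC G J = |J|`; `S_FLP` with `C = J` gives `J' ⊆ J`, `|J'| = |J|`, so `J' = J`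
and the cube does not divide `PJ G J`. -/
def S_sp3 : Prop := ∀ (V : Type) [Fintype V] [DecidableEq V] (G : Gr V) (b b' p q : V),
  Unif G → nu G + 4 = (supp G).card → good G b b' → p ∈ supp G → q ∈ supp G → p ≠ q →
  p ≠ b → p ≠ b' → q ≠ b → q ≠ b' →
  ∃ c : R V, SP G b b' ((((supp G).erase b).erase b').erase p |>.erase q) c ∧ c ≠ 0 ∧
    (∀ v, pderiv v c = 0) ∧
    (∀ w, w ≠ b → w ≠ b' → w ∈ supp G → w ≠ p → w ≠ q → degreeOf w c + 2 ≤ (nbr G w).card)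

/-- O4. Rank 4, `b' ∉ S_T = supp T`.  Let `p ≠ q ∈ S_T`, `J`, `c` from `S_sp3`.
`rk Y (supp G - b) = 4` (`S_rkm`; `supp Y ⊆ supp G - b`), so there is `w ∈ supp G - b`, `w ∉ S_T + b'`; `w ∈ J`.
`c` has `x_w`-degree at most `a = (deg_G w - 2)/2`; so among `nbr Y w` at most `a` zeros
(`S_interp`), at least `deg_Y w - a ≥ deg_G w - 2 - a = a` elements `u` with `sg w u c ≠ 0`.
For such a `u`, `v = hat G b b' w u`, `H = ctr w v G`: `S_sp2`: good `G w v`, `SP H b b' (J-w) c'`,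
`c' ≠ 0`, `PJ H (J - w) ≠ 0`, good `H b b'`; `Y' = ctr b b' H = ctr w u Y`, `good Y w u` (`S_lift`), `T` is
tight in `Y'` (`S_ctrt`, `w ∉ S_T`); `rk H (S_T + b + b') ≥ |{b, b', p, q}| = 4` (`S_rkm`) and
`≤ rk Y' (S_T + b') + 1 ≤ rk Y (S_T + b') + 1 = 4` (`S_FL2`, `S_ctrnu`); so both are equalities and `S_TLline`
gives `Tight T H`.  `S_zeros` (for `G`, `T`, `w`; `T` is not tight in `G`) gives
`2 a + 4 ≤ deg_G w = 2 a + 2`: contradiction. -/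
def S_iia : Prop := ∀ (V : Type) [Fintype V] [DecidableEq V] (n : ℕ) (G T : Gr V) (b b' : V),
  SDn V n → UQn V n → Indec G → (supp G).card = n + 1 → nu G + 4 = n + 1 → good G b b' →
  Indec T → Tight T (ctr b b' G) → b' ∉ supp T →
  rk (ctr b b' G) (insert b' (supp T)) = 3 → False

/-- O5. Geometry.  `U = supp G`, `S_T = supp T ⊆ U - b`, `nu Y = nu G - 1`, `rk Y (U - b) = 4` (`S_rkm`).
`C = {v ∈ U - b : rk Y (insert v S_T) = 4}` (disjoint from `S_T`), `F' = (U - b) - C`; `rk Y F' = 3` (closure of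
`S_T`, submodularity), `rk Y (F' + w) = 4` for `w ∈ C`; by `S_rk` (`b` and the vertices outside `U`
are isolated in `Y`, so contribute nothing to `nuC`) `nuC Y C = |C| - 1`, `nuC Y (C - w) = |C| - 1`, so
`PJ Y C = 0`, `Q_w := PJ Y (C - w) ≠ 0` for `w ∈ C` (`C` is not empty).
(a) `Q_w` is even in `t_w` (`pderiv w Q_w = PJ Y C = 0`), of degree at most `deg_Y w`, and vanishes at
`t_w = t_p` for `p ∈ nbr Y w - C` (`S_ctr_out`): `2 |nbr Y w - C| ≤ deg_Y w` (`S_interp`).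
(b) `deg_Y w ≥ deg_G w - 2 ≥ 4` for `w ≠ b'` (`S_degbd`, `S_nbr`), so
`|C| - 1 ≥ |nbr Y w ∩ C| ≥ deg_Y w / 2 ≥ 2` (`w ∉ nbr Y w`, `b' ∈ S_T`, so `w ≠ b'`). -/
def S_geo : Prop := ∀ (V : Type) [Fintype V] [DecidableEq V] (G T : Gr V) (b b' : V),
  Unif G → nu G + 4 = (supp G).card → good G b b' → Indec T → Tight T (ctr b b' G) →
  b' ∈ supp T → rk (ctr b b' G) (supp T) = 3 →
  ∃ C : Finset V, C ⊆ (supp G).erase b ∧ Disjoint C (supp T) ∧ 3 ≤ C.card ∧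
    ∀ w ∈ C, 2 * (nbr (ctr b b' G) w \ C).card ≤ (nbr (ctr b b' G) w).card

/-- O6. Types in rank 4, `b' ∈ supp T`.  `c ≠ 0` gives (O1; `c` is determined by `H, b, b', J`)
`good H b b'` and `PJ H J ≠ 0`, so `rk H (insert b (supp T)) ≥ |{b, b', p, q}| = 4` (`S_rkm`), so
`rk Y (supp T) ≥ 3` (`S_FL2` with `A = supp T - b'`); `S_TL` (last alternative excluded), `S_EX`. -/
def S_typ : Prop := ∀ (V : Type) [Fintype V] [DecidableEq V] (H T : Gr V) (b b' p q : V)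
  (J : Finset V) (c : R V), IsEv H → SDn V (supp H).card → UQn V (supp H).card →
  SP H b b' J c → c ≠ 0 → Indec T → Tight T (ctr b b' H) → b' ∈ supp T → p ∈ supp T →
  q ∈ supp T → p ≠ q → p ≠ b' → q ≠ b' → p ∉ J → q ∉ J →
  4 ≤ rk H (insert b (supp T)) ∧ 3 ≤ rk (ctr b b' H) (supp T) ∧
  (Tight T H ∨ Tight (tw b b' T) H) ∧ ¬ (Tight T H ∧ Tight (tw b b' T) H)

/-- O7. Claim A.  Suppose `u ∉ supp T`; then `u ≠ b'`, `hat G b b' w u = u`, `H = ctr w u G`; by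
`S_sp2`, `S_lift`, `S_ctrt` (`w ∉ supp T`) and O6 one of `T' = T`, `T' = tw b b' T` is tight in `H`;
`w, u ∉ supp T'` (`S_tw`), `supp T' = supp T` or `supp T - b' + b`, `|supp T'| = |supp T|`.  Apply the previous results to
the good edge `w u` of `G` and `T'`: `S_iia` says `rk H (insert u (supp T')) ≠ 3`; `S_zcap` says it is
`≥ 3`; so `≥ 4`, `rk H (supp T') ≥ 3` (`S_rkm`).
By `S_rk`: `nuC H (insert u (supp T'))ᶜ = rk + nu H - |supp T| - 1 ≥ 4 + nu G - 1 - |supp T| - 1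
= |supp G| - 2 - |supp T| ≥ |C| - 1 ≥ 2` (`C`, `supp T` are disjoint subsets of `supp G - b`).
`S_two` for the edge `w u` and `T'`: contradiction. -/
def S_clA : Prop := ∀ (V : Type) [Fintype V] [DecidableEq V] (n : ℕ) (G T : Gr V)
  (b b' p q w u : V) (J C : Finset V) (c : R V), SDn V n → UQn V n → Indec G →
  (supp G).card = n + 1 → nu G + 4 = n + 1 → good G b b' → Indec T → Tight T (ctr b b' G) →
  b' ∈ supp T → SP G b b' J c → c ≠ 0 → p ∈ supp T → q ∈ supp T → p ≠ q → p ≠ b' → q ≠ b' →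
  p ∉ J → q ∉ J → C ⊆ (supp G).erase b → Disjoint C (supp T) → 3 ≤ C.card → w ∈ C → w ∈ J →
  ctr b b' G w u ≠ 0 → sg w u c ≠ 0 → u ∈ supp T

/-- O8. Double specialisation.  `c₁` free of `t_w`: `sg w₁ u₁ c = c₁ prod_{x ∈ Γ} (x_{u₁} + x_x)`;
`sg w₂ u₂ c ≠ 0` gives `sg w₂ u₂ c₁ ≠ 0`; `sg w₂ u₂ (x_{u₁} + x_x) ≠ 0` for `x ∈ Γ`, because `u₁ ∉ Γ`,
`u₁ ≠ w₂`, `x = w₂` gives `x_{u₁} + x_{u₂}`, and otherwise `x ≠ u₁`.  Existence of the
factorisation: `S_dvd` for the factors `x ∈ Γ` one after the other (each `x_{w₁} + x_x` divides,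
the quotient is again even and vanishes at the other zeros, the degree drops by 2). -/
def S_dsp : Prop := ∀ (V : Type) [DecidableEq V] (c : R V) (w₁ w₂ u₁ u₂ : V) (Γ : Finset V),
  (∀ v, pderiv v c = 0) → c ≠ 0 → w₁ ∉ Γ → degreeOf w₁ c ≤ 2 * Γ.card →
  (∀ x ∈ Γ, sg w₁ x c = 0) → w₁ ≠ w₂ → u₁ ≠ w₁ → u₁ ≠ w₂ → u₁ ∉ Γ → u₂ ≠ u₁ → u₂ ≠ w₁ →
  u₂ ≠ w₂ → sg w₂ u₂ c ≠ 0 → sg w₂ u₂ (sg w₁ u₁ c) ≠ 0

/-- O9. Rank 4, `b' ∈ S_T = supp T`, `rk Y S_T = 3`.  Take `C` from `S_geo`, `p ≠ q ∈ S_T - b'` (`|S_T| ≥ 3`), `c`, `J`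
from `S_sp3`; `C ⊆ J`.  For `w ∈ C`: `deg_G w = 2 a + 2`, `c` has at most `a` zeros in `nbr Y w` (`S_interp`:
degree `≤ 2 a`); the nonzeros `Φ_w` are all in `S_T` (`S_clA`), so outside `C`, at most `deg_Y w / 2` of
them (`S_geo`).  So `deg_Y w - a ≤ |Φ_w| ≤ deg_Y w / 2`, i.e. `deg_Y w ≤ 2 a`; hence (`S_nbr`) `w` is adjacent to
both `b, b'`, `deg_Y w = 2 a`, `b' ∉ nbr Y w`, `|Φ_w| = a`, and the zeros are exactly `a` in number; as
`|nbr Y w - C| ≤ a` and `Φ_w ⊆ nbr Y w - C`: `Φ_w = nbr Y w - C`, the zeros are `Γ_w = nbr Y w ∩ C`, `|Γ_w| = a`.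
For `u ∈ Φ_w` (`hat G b b' w u = u`), `H = ctr w u G`, by O6 exactly one of `T`, `tw b b' T` is tight in `H`
(types 0, 1), good `G w u`.  By `S_zeros` each type occurs at most `a - 1` times, so both types
occur in `Φ_w`.
Claim: `w₁ ≠ w₂ ∈ C`, `u_i ∈ Φ_{w_i}`, `u₁ ≠ u₂` ⇒ same type.  By O8 `sg w₂ u₂ (sg w₁ u₁ c) ≠ 0`; by `S_sp2`
`sg w₁ u₁ c = q c'`, `c'` the star polynomial of `H₁ = ctr w₁ u₁ G`, `J - w₁`, so `sg w₂ u₂ c' ≠ 0`;
`ctr b b' H₁ w₂ u₂ = ctr w₁ u₁ Y w₂ u₂ = Y w₂ u₂ ≠ 0`, `hat H₁ b b' w₂ u₂ = u₂`; `S_sp2` again: `H₁₂ = ctr w₂ u₂ H₁`, star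
polynomial `c'' ≠ 0`, `good H₁ w₂ u₂`, `good H₁₂ b b'`; `H₁₂ = ctr w₁ u₁ H₂` (`S_ctrcomm`), `good H₂ w₁ u₁`
(ranks).  The `T_{τ_i}` are both tight in `H₁₂` (`S_ctrt`) and `T` is tight in `ctr b b' H₁₂`; O6 for
`H₁₂`: not both types.
Now take three vertices `w₁, w₂, w₃ ∈ C`; `u_i` of type 0 and `u_i'` of type 1 in `Φ_{w_i}`.  For `i ≠ j`
`u_i = u_j'` by the claim.  So `u₁ = u₂' = u₃ = u₁'`, but `u₁` has only one type at `w₁`: contradiction. -/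
def S_iib : Prop := ∀ (V : Type) [Fintype V] [DecidableEq V] (n : ℕ) (G T : Gr V) (b b' : V),
  SDn V n → UQn V n → Indec G → (supp G).card = n + 1 → nu G + 4 = n + 1 → good G b b' →
  Indec T → Tight T (ctr b b' G) → b' ∈ supp T → rk (ctr b b' G) (supp T) = 3 → False

/-! ## Q. Conclusion -/

/-- Q1. `Y = ctr b b' G`, `supp Y = supp G - b` (`b' ∈ supp Y`, other degrees drop by at most 2 from at
least 6).  Decompose `Y` into indecomposables `T_1, ..., T_m` (`S_decomp`), `m ≥ 1`.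
`m = 1`: `Y` is indecomposable with `|supp Y| = n = nu Y + r`, `r ≥ 4`, so by `SDn` `Y = K (supp G - b)`,
contradiction to `S_m1`.  Let `m ≥ 2`, `S_i = supp T_i`, `A_i = insert b' S_i`, `ν_i = nu T_i`.  `ν_i ≥ 2` (`ν_i = 1` is a
triangle, of rank `≤ 2`), and `2 ν_i + 1 ≥ |S_i|` (`SDn`: clique, or `|S_i| ≤ ν_i + 3`).
Suppose `nuC Y A_iᶜ ≤ 1` for `i = 1, 2`.  `nuC T_j A_iᶜ ≤ nuC Y A_iᶜ ≤ 1` (`S_tcons`), `T_j` is uniform of `ν_j ≥ 2`
(`S_unif`, `S_unifrk`), so `|S_j - A_i| ≤ 1`.  Let `t = |S₁ ∩ S₂|`, `d₁ = |S₁ - S₂|`, `d₂ = |S₂ - S₁|`; so `d_i ≤ 1` except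
that one of them may be 2 if it contains `b'`.  `T₁ + T₂` is tight in `Y`, `nu (T₁ + T₂) = ν₁ + ν₂` (`S_dorth`, `S_ocons` ...),
so `rk Y (S₁ ∪ S₂) ≤ rk (T₁+T₂) (S₁ ∪ S₂) = t + d₁ + d₂ - ν₁ - ν₂ ≤ 1 + (d₁ + d₂)/2`.
If `b' ∉ S₁ ∪ S₂`: `≤ 2`, but it is `≥ 3`.  If `b' ∈ S₁ ∪ S₂`: `≤ 5/2`, but it is `≥ rk Y A_i ≥ 4`
for `i` with `b' ∈ S_i`. -/
def S_piece : Prop := ∀ (V : Type) [Fintype V] [DecidableEq V] (n : ℕ) (G : Gr V) (b b' : V),
  SDn V n → Indec G → (supp G).card = n + 1 → nu G + 4 ≤ n + 1 → good G b b' →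
  b' ∈ supp (ctr b b' G) →
  (∀ T, Indec T → Tight T (ctr b b' G) → 3 ≤ rk (ctr b b' G) (supp T) ∧
    4 ≤ rk (ctr b b' G) (insert b' (supp T))) →
  ∃ T, Indec T ∧ Tight T (ctr b b' G) ∧ 2 ≤ nuC (ctr b b' G) (insert b' (supp T))ᶜ

/-- Q2. Induction step.  `G` indecomposable, `|supp G| = n + 1`, not `Basic`, so `r ≥ 4`.  `S_nontwin` gives a
good edge `b b'` with `b' ∈ supp Y`.  Rank conditions of `S_piece`: let `T` be indecomposable tight in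
`Y`, `A = supp T - b'` (`⊆ supp G`).  If `b' ∈ supp T`: `S_zcap` with `A`: `rk Y (supp T) ≥ min (r-1) |supp T|`,
and `rk Y (supp T) ≤ rk T (supp T) = |supp T| - nu T < |supp T|`, so `rk Y (supp T) ≥ r - 1`: fine if `r ≥ 5`;
if `r = 4` it is `≥ 3` and not `3` by `S_iib`.  If `b' ∉ supp T`: `rk Y (insert b' (supp T)) ≥
min (r-1) (|supp T| + 1)`, `|supp T| ≥ 3`: `≥ 4` if `r ≥ 5`; if `r = 4` it is `≥ 3`, not `3` by `S_iia`; and
`rk Y (supp T) ≥ 3` (`S_rkm`).  Now `S_piece` and `S_two`. -/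
def S_step : Prop := ∀ (V : Type) [Fintype V] [DecidableEq V] (n : ℕ), SDn V n → SDn V (n + 1)

/-- Q3. Strong duality (`SDn V 0`: `supp G` empty means `G = 0`). -/
def S_all : Prop := ∀ (V : Type) [Fintype V] [DecidableEq V] (n : ℕ), SDn V n

end Pool.Agent.W390.SD
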